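import Pool.Agent.U731.SP.Wh
import Pool.Agent.N510.LT.UForm
import Pool.Agent.N510.CT.Dom

set_option autoImplicit false
set_option linter.style.haveILetI false
set_option linter.unusedSectionVars false

/-! Even hermitian matrices and hermitian matrices of span close to `3 √2`. -/

namespace Pool.Agent.U731.SP

open Matrix TH57.Thr TH6.LF TH6.PF Pool.Agent.N510

/-- all coefficients are `0`, `1` or `-1` -/
def SmallZ {G ι κ : Type} (A : Matrix ι κ (MonoidAlgebra ℤ G)) : Prop :=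
  ∀ i j g, (A i j).coeff g = 0 ∨ (A i j).coeff g = 1 ∨ (A i j).coeff g = -1

theorem sadj_one_eq {G ι κ : Type} [Group G] (A : Matrix ι κ (MonoidAlgebra ℤ G)) :
    sadj (1 : G →* ℤˣ) A = adj A := by
  ext i j g
  rw [sadj_apply, coeff_sbar, coeff_adj, MonoidHom.one_apply, Units.val_one, one_smul]
  rfl

/-- the even hermitian matrix `ψ + ψ*` plus hyperbolic planes -/
noncomputable def evH {G : Type} [Group G] {ι : Type} (q : Type) [DecidableEq q]
    (ψ : Matrix ι ι (MonoidAlgebra ℤ G)) :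
    Matrix (ι ⊕ (q ⊕ q)) (ι ⊕ (q ⊕ q)) (MonoidAlgebra ℤ G) :=
  fromBlocks (ψ + adj ψ) 0 0 (fromBlocks 0 1 1 0)

theorem evH_eq {G : Type} [Group G] {ι : Type} (q : Type) [DecidableEq q]
    (ψ : Matrix ι ι (MonoidAlgebra ℤ G)) : evH q ψ = addHyp q ψ + adj (addHyp q ψ) := by
  unfold evH addHyp
  rw [adj_fromBlocks, adj_fromBlocks, fromBlocks_add, fromBlocks_add]
  simp only [adj_zero, adj_one, add_zero, zero_add]

/-- **Reduction of even hermitian matrices.** -/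
theorem even_red {G : Type} [Group G] {n : ℕ} (ψ : Matrix (Fin n) (Fin n) (MonoidAlgebra ℤ G))
    (s : ℝ) (hs0 : 0 < s) (hs : 18 < s ^ 2) :
    ∃ (m : ℕ) (E : (Matrix (Fin n ⊕ (Fin m ⊕ Fin m)) (Fin n ⊕ (Fin m ⊕ Fin m))
        (MonoidAlgebra ℤ G))ˣ),
      E ∈ commutator (Matrix (Fin n ⊕ (Fin m ⊕ Fin m)) (Fin n ⊕ (Fin m ⊕ Fin m))
        (MonoidAlgebra ℤ G))ˣ ∧
      HermZ (E.val * evH (Fin m) ψ * adj E.val) ∧ SmallZ (E.val * evH (Fin m) ψ * adj E.val) ∧
      SpanLE (toReal (E.val * evH (Fin m) ψ * adj E.val)) s := by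
  have hc : 9 / 2 < (s / 2) ^ 2 := by rw [div_pow]; linarith
  obtain ⟨m, P, h1, h2, h3, h4⟩ := LT.sform_reduction_fin (1 : G →* ℤˣ) CT.gens_int ψ (s / 2)
    (by positivity) hc
  rw [sadj_one_eq] at h2 h3 h4
  refine ⟨m, P, h1, ?_⟩
  set φ := P.val * addHyp (Fin m) ψ * adj P.val with hφd
  have hsum : P.val * evH (Fin m) ψ * adj P.val = φ + adj φ := by
    rw [evH_eq, hφd, adj_mul, adj_mul, adj_adj, Matrix.mul_add, Matrix.add_mul,
      Matrix.mul_assoc P.val (adj (addHyp (Fin m) ψ))]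
  rw [hsum]
  have hφ : SmallZ φ := by
    intro i j g
    by_cases h0 : (φ i j).coeff g = 0
    · exact Or.inl h0
    · exact Or.inr (h3 i j g h0)
  have hco : ∀ i j g, ((φ + adj φ) i j).coeff g = (φ i j).coeff g + (φ j i).coeff g⁻¹ := by
    intro i j g
    rw [Matrix.add_apply, coeff_add', coeff_adj]
  have hherm : HermZ (φ + adj φ) := by
    intro i j g
    rw [hco, hco, inv_inv, add_comm]
  have hsm : SmallZ (φ + adj φ) := by
    intro i j g
    rw [hco]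
    rcases h2 i j with h | h
    · rw [h, MonoidAlgebra.coeff_zero, Finsupp.coe_zero, Pi.zero_apply, zero_add]
      exact hφ j i g⁻¹
    · rw [h, MonoidAlgebra.coeff_zero, Finsupp.coe_zero, Pi.zero_apply, add_zero]
      exact hφ i j g
  refine ⟨hherm, hsm, ?_⟩
  have hN : NormLE (φ + adj φ) (s / 2) := by
    refine CT.normLE_of_dom _ (symPat φ) (fun i j g => ?_) (s / 2) h4
    have hi : ∀ r : ℤ, (r = 0 ∨ r = 1 ∨ r = -1) → |r| = ind r := by
      intro r hr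
      by_cases h0 : r = 0
      · rw [h0, ind_zero, abs_zero]
      · rw [ind_of_ne h0]
        rcases hr with h | h | h
        · exact absurd h h0
        · rw [h, abs_one]
        · rw [h, abs_neg, abs_one]
    rw [hco, coeff_symPat, ← hi _ (hφ i j g), ← hi _ (hφ j i g⁻¹)]
    exact abs_add_le _ _
  have := span_of_norm (φ + adj φ) (s / 2) (by positivity) hN
  rwa [mul_div_cancel₀ s two_ne_zero] at this

section dual

variable {G : Type} [Group G] {κ : Type} [Fintype κ] [DecidableEq κ]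

/-- the automorphism `x ↦ (x*)⁻¹` of the general linear group -/
noncomputable def dual : (Matrix κ κ (MonoidAlgebra ℤ G))ˣ →* (Matrix κ κ (MonoidAlgebra ℤ G))ˣ where
  toFun x := ⟨adj (↑x⁻¹ : Matrix κ κ (MonoidAlgebra ℤ G)), adj (x : Matrix κ κ (MonoidAlgebra ℤ G)),
    by rw [← adj_mul, x.mul_inv, adj_one], by rw [← adj_mul, x.inv_mul, adj_one]⟩
  map_one' := by
    apply Units.ext
    change adj (↑(1 : (Matrix κ κ (MonoidAlgebra ℤ G))ˣ)⁻¹ : Matrix κ κ (MonoidAlgebra ℤ G)) = 1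
    rw [inv_one, Units.val_one, adj_one]
  map_mul' x y := by
    apply Units.ext
    change adj (↑(x * y)⁻¹ : Matrix κ κ (MonoidAlgebra ℤ G))
      = adj (↑x⁻¹ : Matrix κ κ (MonoidAlgebra ℤ G)) * adj (↑y⁻¹ : Matrix κ κ (MonoidAlgebra ℤ G))
    rw [← adj_mul, _root_.mul_inv_rev, Units.val_mul]

theorem dual_comm (x : (Matrix κ κ (MonoidAlgebra ℤ G))ˣ)
    (hx : x ∈ commutator (Matrix κ κ (MonoidAlgebra ℤ G))ˣ) :
    dual x ∈ commutator (Matrix κ κ (MonoidAlgebra ℤ G))ˣ := by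
  have h1 : commutator (Matrix κ κ (MonoidAlgebra ℤ G))ˣ
      ≤ (commutator (Matrix κ κ (MonoidAlgebra ℤ G))ˣ).comap dual := by
    rw [← Subgroup.map_le_iff_le_comap, commutator_def, Subgroup.map_commutator]
    exact Subgroup.commutator_mono le_top le_top
  exact h1 hx

end dual

/-- the hyperbolic block is trivial in the Whitehead group -/
theorem TT_hypBlock {G : Type} [Group G] (q : Type) [Fintype q] [DecidableEq q]
    (H : (Matrix (q ⊕ q) (q ⊕ q) (MonoidAlgebra ℤ G))ˣ) (hH : H.val = fromBlocks 0 1 1 0) :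
    TT (TU G) H := by
  have h1 : (fromBlocks 0 1 1 0 : Matrix (q ⊕ q) (q ⊕ q) ℤ)
      * (fromBlocks 0 1 1 0 : Matrix (q ⊕ q) (q ⊕ q) ℤ) = 1 := by
    rw [Matrix.fromBlocks_multiply, ← Matrix.fromBlocks_one]
    simp
  have h2 : H = Units.map (mpm (Int.castRingHom (MonoidAlgebra ℤ G))) ⟨_, _, h1, h1⟩ := by
    apply Units.ext
    rw [hH]
    ext1 i j
    change _ = ((((fromBlocks 0 1 1 0 : Matrix (q ⊕ q) (q ⊕ q) ℤ) i j : ℤ)) : MonoidAlgebra ℤ G)
    rcases i with i | i <;> rcases j with j | j <;>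
      simp [Matrix.one_apply]
  rw [h2]
  exact TT_im _

/-- If all hermitian matrices with small coefficients and small span are trivial, then all even
hermitian matrices are. -/
theorem TT_even {G : Type} [Group G] (s : ℝ) (hs0 : 0 < s) (hs : 18 < s ^ 2)
    (hall : ∀ (κ : Type) [Fintype κ] [DecidableEq κ] (Q : (Matrix κ κ (MonoidAlgebra ℤ G))ˣ),
      HermZ Q.val → SmallZ Q.val → SpanLE (toReal Q.val) s → TT (TU G) Q)
    {n : ℕ} (ψ : Matrix (Fin n) (Fin n) (MonoidAlgebra ℤ G))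
    (P : (Matrix (Fin n) (Fin n) (MonoidAlgebra ℤ G))ˣ) (hP : P.val = ψ + adj ψ) :
    TT (TU G) P := by
  obtain ⟨m, E, hE, h1, h2, h3⟩ := even_red ψ s hs0 hs
  have hH : (fromBlocks 0 1 1 0 : Matrix (Fin m ⊕ Fin m) (Fin m ⊕ Fin m) (MonoidAlgebra ℤ G))
      * (fromBlocks 0 1 1 0 : Matrix (Fin m ⊕ Fin m) (Fin m ⊕ Fin m) (MonoidAlgebra ℤ G)) = 1 := by
    rw [Matrix.fromBlocks_multiply, ← Matrix.fromBlocks_one]
    simp
  let H : (Matrix (Fin m ⊕ Fin m) (Fin m ⊕ Fin m) (MonoidAlgebra ℤ G))ˣ := ⟨_, _, hH, hH⟩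
  have hPH : fromBlocks P.val 0 0 H.val * fromBlocks (↑P⁻¹ : Matrix (Fin n) (Fin n)
      (MonoidAlgebra ℤ G)) 0 0 (↑H⁻¹ : Matrix (Fin m ⊕ Fin m) (Fin m ⊕ Fin m)
      (MonoidAlgebra ℤ G)) = 1 := by
    rw [Matrix.fromBlocks_multiply, ← Matrix.fromBlocks_one]
    simp
  have hPH' : fromBlocks (↑P⁻¹ : Matrix (Fin n) (Fin n)
      (MonoidAlgebra ℤ G)) 0 0 (↑H⁻¹ : Matrix (Fin m ⊕ Fin m) (Fin m ⊕ Fin m)
      (MonoidAlgebra ℤ G)) * fromBlocks P.val 0 0 H.val = 1 := by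
    rw [Matrix.fromBlocks_multiply, ← Matrix.fromBlocks_one]
    simp
  let K : (Matrix (Fin n ⊕ (Fin m ⊕ Fin m)) (Fin n ⊕ (Fin m ⊕ Fin m)) (MonoidAlgebra ℤ G))ˣ :=
    ⟨_, _, hPH, hPH'⟩
  have hK : K.val = evH (Fin m) ψ := by
    change fromBlocks P.val 0 0 H.val = _
    rw [hP]
    rfl
  let Q := E * K * (dual E)⁻¹
  have hQ : Q.val = E.val * evH (Fin m) ψ * adj E.val := by
    rw [← hK]
    rfl
  have hQT : TT (TU G) Q := hall _ Q (by rw [hQ]; exact h1) (by rw [hQ]; exact h2)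
    (by rw [hQ]; exact h3)
  have hKT : TT (TU G) K := by
    have h4 : K = E⁻¹ * Q * dual E := by
      simp only [Q]
      group
    rw [h4]
    exact TT_mul _ _ _ (TT_mul _ _ _ (TT_inv _ _ (TT_of_mem _ _ (commutator_le_HH _ hE))) hQT)
      (TT_of_mem _ _ (commutator_le_HH _ (dual_comm E hE)))
  -- remove the hyperbolic block
  have hHT : TT (TU G) H := TT_hypBlock (Fin m) H rfl
  apply TT_unst (μ := Fin m ⊕ Fin m)
  have h5 : fromBlocks (1 : Matrix (Fin n) (Fin n) (MonoidAlgebra ℤ G)) 0 0 H.val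
      * fromBlocks 1 0 0 H.val = 1 := by
    rw [Matrix.fromBlocks_multiply, ← Matrix.fromBlocks_one]
    simp [H, hH]
  let H' : (Matrix (Fin n ⊕ (Fin m ⊕ Fin m)) (Fin n ⊕ (Fin m ⊕ Fin m)) (MonoidAlgebra ℤ G))ˣ :=
    ⟨_, _, h5, h5⟩
  have hH'T : TT (TU G) H' := by
    refine TT_tri (TU G) (1 : (Matrix (Fin n) (Fin n) (MonoidAlgebra ℤ G))ˣ) H 0 H' rfl
      (TT_one _) hHT
  have h6 : Units.map (stm (Fin m ⊕ Fin m)) P = K * H' := by
    apply Units.ext
    rw [Units.val_mul]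
    change fromBlocks P.val 0 0 1 = fromBlocks P.val 0 0 H.val * fromBlocks 1 0 0 H.val
    rw [Matrix.fromBlocks_multiply]
    simp [H, hH]
  rw [h6]
  exact TT_mul _ _ _ hKT hH'T

end Pool.Agent.U731.SP
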