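import Pool.Agent.U731.SP.Struct
import Pool.Agent.U731.SP.WhUp
import Pool.Agent.N510.CT.Ati
import Pool.Agent.R719.AT.Red

set_option autoImplicit false
set_option linter.unusedSectionVars false
set_option linter.style.haveILetI false

/-! Kernel dimensions of hermitian matrices of small span. -/

open scoped InnerProductSpace ENNReal
open Filter Topology

namespace Pool.Agent.U731.SP

open Pool.Agent Pool.Agent.TH25.AD
open Pool.Agent.W656.VA
open Pool.Agent.H80R2
open Pool.Agent.H80R2.BC (L2 GMat vdim kerA Coef)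
open TH57.Thr TH57.Thr.Ati Pool.Agent.Y477.AV Matrix TH6.PF Pool.Agent.N510

section below

variable {G : Type} [Group G]

/-- **Below the threshold.** -/
theorem kap_span {K : Type} [Fintype K] [DecidableEq K]
    (A : Matrix K K (MonoidAlgebra ℂ G)) (hA : Herm A) (hB : BigOff A) (s : ℝ) (hs : s ^ 2 ≤ 18)
    (hsp : SpanLE A s) (B : Matrix K K (MonoidAlgebra ℂ G))
    (hBA : ∀ i j g, (B i j).coeff g ≠ 0 → (i = j ∧ g = 1) ∨ (A i j).coeff g ≠ 0) :
    kap B ∈ Lam G := by
  classical
  obtain ⟨ρ, u, C, hC, hst⟩ := herm_struct A hA hB s hs hsp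
  have hstB : ∀ i j h, (B i j).coeff h ≠ 0 → ρ i = ρ j ∧ u i * h * (u j)⁻¹ ∈ C (ρ i) := by
    intro i j h hne
    rcases hBA i j h hne with ⟨rfl, rfl⟩ | h1
    · exact ⟨rfl, by rw [mul_one, mul_inv_cancel]; exact one_mem _⟩
    · exact hst i j h h1
  let D1 : Matrix K K (MonoidAlgebra ℂ G) :=
    Matrix.diagonal fun i => MonoidAlgebra.single (u i) 1
  let D1' : Matrix K K (MonoidAlgebra ℂ G) :=
    Matrix.diagonal fun i => MonoidAlgebra.single (u i)⁻¹ 1
  have h1 : D1 * D1' = 1 := by
    simp only [D1, D1']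
    rw [Matrix.diagonal_mul_diagonal, ← Matrix.diagonal_one]
    congr 1
    funext i
    rw [MonoidAlgebra.single_mul_single, mul_inv_cancel, mul_one, MonoidAlgebra.one_def]
  have h2 : D1' * D1 = 1 := by
    simp only [D1, D1']
    rw [Matrix.diagonal_mul_diagonal, ← Matrix.diagonal_one]
    congr 1
    funext i
    rw [MonoidAlgebra.single_mul_single, inv_mul_cancel, mul_one, MonoidAlgebra.one_def]
  have hBe : ∀ i j, (D1 * B * D1') i j = MonoidAlgebra.single (u i) 1 * B i j
      * MonoidAlgebra.single (u j)⁻¹ 1 := by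
    intro i j
    simp only [D1, D1']
    rw [Matrix.mul_diagonal, Matrix.diagonal_mul]
  have hBc : ∀ i j g, ((D1 * B * D1') i j).coeff g ≠ 0 → ρ i = ρ j ∧ g ∈ C (ρ i) := by
    intro i j g hg
    rw [hBe, MonoidAlgebra.coeff_mul_single_apply, MonoidAlgebra.coeff_single_mul_apply, one_mul,
      mul_one, inv_inv] at hg
    have h1 := hstB i j _ hg
    refine ⟨h1.1, ?_⟩
    have h2 := h1.2
    have h3 : u i * ((u i)⁻¹ * (g * u j)) * (u j)⁻¹ = g := by group
    rwa [h3] at h2
  have h3 : kap (D1 * B * D1') = kap B := by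
    rw [kap_unit_right _ h2, kap_mul_left D1 (Rop_inj h1)]
  rw [← h3, kap_eq]
  let e := Fintype.equivFin K
  let C' : ℕ → Subgroup G := fun b => if h : b < Fintype.card K then C (e.symm ⟨b, h⟩) else ⊥
  have hC' : ∀ b, ∃ s : C' b, (Subgroup.zpowers s).FiniteIndex := by
    intro b
    by_cases h : b < Fintype.card K
    · have e1 : C' b = C (e.symm ⟨b, h⟩) := dif_pos h
      rw [e1]
      exact hC _
    · have e1 : C' b = ⊥ := dif_neg h
      rw [e1]
      exact ⟨1, inferInstance⟩
  have hCe : ∀ x, C' (e x) = C x := by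
    intro x
    have : C' (e x) = C (e.symm ⟨e x, (e x).2⟩) := dif_pos (e x).2
    rw [this]
    congr 1
    exact e.symm_apply_apply x
  refine vdim_blocks C' hC' (Fintype.card K) (gm (D1 * B * D1'))
    (fun i => e (ρ i)) (fun j => e (ρ j)) (fun i => (e _).2) ?_
  intro j i g hne
  rw [gm_apply] at hne
  obtain ⟨h4, h5⟩ := hBc i j _ hne
  refine ⟨by rw [h4], ?_⟩
  rw [hCe]
  exact (Subgroup.inv_mem_iff _).1 h5

end below

section square

variable {G : Type} [Group G]

open Pool.Agent.R719.AT Pool.Agent.W649.ZL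

theorem kap_mul_sta_sq {K : Type} [Fintype K] [DecidableEq K]
    (A : Matrix K K (MonoidAlgebra ℂ G)) : kap (A * sta A) = kap A := by
  unfold kap
  congr 1
  ext F
  rw [LinearMap.mem_ker, LinearMap.mem_ker]
  change Rop (A * sta A) F = 0 ↔ Rop A F = 0
  rw [Rop_mul, Rop_sta, ContinuousLinearMap.comp_apply]
  constructor
  · intro h
    have h1 : ⟪Rop A F, Rop A F⟫_ℂ = 0 := by
      rw [← ContinuousLinearMap.adjoint_inner_right, h, inner_zero_right]
    exact inner_self_eq_zero.1 h1
  · intro h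
    rw [h, map_zero]

end square

end Pool.Agent.U731.SP
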