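import Pool.Agent.U731.SP.Ati
import Pool.Agent.R719.AT.Shp

set_option autoImplicit false
set_option linter.unusedSectionVars false
set_option linter.style.haveILetI false

/-! Every kernel dimension is the kernel dimension of a hermitian matrix of span close to `3 √2`. -/

open scoped InnerProductSpace ENNReal
open Filter Topology

namespace Pool.Agent.U731.SP

open Pool.Agent Pool.Agent.TH25.AD
open Pool.Agent.W656.VA
open Pool.Agent.H80R2
open Pool.Agent.H80R2.BC (L2 GMat vdim kerA Coef)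
open TH57.Thr TH57.Thr.Ati Pool.Agent.Y477.AV Matrix TH6.PF TH6.LF Pool.Agent.N510
open Pool.Agent.R719.AT Pool.Agent.W649.ZL

section gen

variable {G : Type} [Group G] {K L : Type} [Fintype K] [Fintype L] [DecidableEq K] [DecidableEq L]

theorem kap_mul_sta (A : Matrix K L (MonoidAlgebra ℂ G)) : kap (A * sta A) = kap A := by
  have h1 := kap_mul_sta_sq (R719.AT.sq A)
  rw [kap_sq] at h1
  let E1 : Matrix (K ⊕ L) K (MonoidAlgebra ℂ G) := fromRows 1 0
  let E1' : Matrix K (K ⊕ L) (MonoidAlgebra ℂ G) := fromCols 1 0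
  have h2 : E1' * E1 = 1 := by
    simp only [E1, E1']
    rw [Matrix.fromCols_mul_fromRows]
    simp
  have h3 : sta (R719.AT.sq A) = fromBlocks 0 0 (sta A) 0 := by
    have h0 : st (0 : MonoidAlgebra ℂ G) = 0 := by
      ext g
      rw [st_coeff]
      simp
    ext1 i j
    rcases i with i | i <;> rcases j with j | j
    · exact h0
    · exact h0
    · rfl
    · exact h0
  have h4 : R719.AT.sq A * sta (R719.AT.sq A) = E1 * ((A * sta A) * E1') := by
    rw [h3]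
    simp only [E1, E1', R719.AT.sq]
    rw [Matrix.fromBlocks_multiply, Matrix.mul_fromCols, Matrix.fromRows_mul]
    ext1 i j
    rcases i with i | i <;> rcases j with j | j <;> simp
  rw [h4, kap_split _ h2, kap_unit_right _ h2, Fintype.card_sum] at h1
  push_cast at h1
  linarith

theorem toC_adj (B : Matrix K L (MonoidAlgebra ℤ G)) : toC (adj B) = sta (toC B) := by
  ext i j g
  rw [toC_coeff, coeff_adj]
  change _ = (st (toC B j i)).coeff g
  rw [st_coeff, toC_coeff]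
  simp

theorem span_re (e : L ≃ K) (Q : Matrix K K (MonoidAlgebra ℤ G)) (s : ℝ)
    (h : SpanLE (toReal Q) s) : SpanLE (toReal (Q.submatrix e e)) s := by
  rw [spanLE_iff] at h ⊢
  obtain ⟨a, ha⟩ := h
  refine ⟨a, fun x => ?_⟩
  have h5 := ha (x ∘ e.symm)
  have h6 : TH57.Thr.normSq (x ∘ e.symm) = TH57.Thr.normSq x := by
    unfold TH57.Thr.normSq
    exact Equiv.sum_comp e.symm (fun i => ∑ g ∈ (x i).coeff.support, (x i).coeff g ^ 2)
  have h7 : ip ((x ∘ e.symm) ᵥ* toReal Q) (x ∘ e.symm)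
      = ip (x ᵥ* toReal (Q.submatrix e e)) x := by
    unfold ip
    congr 2
    rw [← Equiv.sum_comp e]
    refine Finset.sum_congr rfl fun i _ => ?_
    congr 1
    · simp only [Matrix.vecMul, dotProduct]
      rw [← Equiv.sum_comp e]
      refine Finset.sum_congr rfl fun j _ => ?_
      simp only [Function.comp_apply, Equiv.symm_apply_apply]
      rfl
    · simp only [Function.comp_apply, Equiv.symm_apply_apply]
  rw [h6, h7] at h5
  exact h5

end gen

/-- every integer matrix has the same kernel dimension as a hermitian one of small span -/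
theorem herm_red {G : Type} [Group G] {m n : ℕ} (B : Matrix (Fin m) (Fin n) (MonoidAlgebra ℤ G))
    (s : ℝ) (hs0 : 0 < s) (hs : 18 < s ^ 2) :
    ∃ (k : ℕ) (Q : Matrix (Fin k) (Fin k) (MonoidAlgebra ℤ G)), HermZ Q ∧ SmallZ Q ∧
      SpanLE (toReal Q) s ∧ kap (toC Q) = kap (toC B) := by
  obtain ⟨q, E, -, h1, h2, h3⟩ := even_red (B * adj B) s hs0 hs
  set Q := E.val * evH (Fin q) (B * adj B) * adj E.val with hQ
  have hk : kap (toC Q) = kap (toC B) := by
    have e1 : (toC E.val) * (toC (↑E⁻¹ : Matrix (Fin m ⊕ (Fin q ⊕ Fin q))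
        (Fin m ⊕ (Fin q ⊕ Fin q)) (MonoidAlgebra ℤ G))) = 1 := by
      unfold toC
      rw [← toC_mul, E.mul_inv, toC_one]
    have e2 : (toC (adj E.val)) * (toC (adj (↑E⁻¹ : Matrix (Fin m ⊕ (Fin q ⊕ Fin q))
        (Fin m ⊕ (Fin q ⊕ Fin q)) (MonoidAlgebra ℤ G)))) = 1 := by
      unfold toC
      rw [← toC_mul, ← adj_mul, E.inv_mul, adj_one, toC_one]
    have e3 : toC Q = toC E.val * toC (evH (Fin q) (B * adj B)) * toC (adj E.val) := by
      rw [hQ]
      unfold toC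
      rw [toC_mul, toC_mul]
    rw [e3, kap_unit_right _ e2, kap_mul_left _ (Rop_inj e1)]
    -- the even matrix
    let H : Matrix (Fin q ⊕ Fin q) (Fin q ⊕ Fin q) (MonoidAlgebra ℂ G) := fromBlocks 0 1 1 0
    let T : Matrix (Fin m ⊕ (Fin q ⊕ Fin q)) (Fin m ⊕ (Fin q ⊕ Fin q)) (MonoidAlgebra ℂ G) :=
      fromBlocks (Matrix.diagonal fun _ => MonoidAlgebra.single 1 2) 0 0 H
    let T' : Matrix (Fin m ⊕ (Fin q ⊕ Fin q)) (Fin m ⊕ (Fin q ⊕ Fin q)) (MonoidAlgebra ℂ G) :=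
      fromBlocks (Matrix.diagonal fun _ => MonoidAlgebra.single 1 (1 / 2)) 0 0 H
    have hH : H * H = 1 := by
      simp only [H]
      rw [Matrix.fromBlocks_multiply, ← Matrix.fromBlocks_one]
      simp
    have hT : T * T' = 1 := by
      simp only [T, T']
      have h2 : (2 : ℂ) * (1 / 2) = 1 := by norm_num
      rw [Matrix.fromBlocks_multiply, ← Matrix.fromBlocks_one, hH, Matrix.diagonal_mul_diagonal]
      simp only [MonoidAlgebra.single_mul_single, mul_one, h2, Matrix.zero_mul, Matrix.mul_zero,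
        add_zero, zero_add]
      rw [← MonoidAlgebra.one_def, Matrix.diagonal_one]
    have e4 : toC (evH (Fin q) (B * adj B)) = fromBlocks (toC (B * adj B)) 0 0 1 * T := by
      simp only [T]
      rw [Matrix.fromBlocks_multiply]
      unfold evH
      have e6 : toC (fromBlocks (B * adj B + adj (B * adj B)) 0 0 (fromBlocks 0 1 1 0) :
          Matrix (Fin m ⊕ (Fin q ⊕ Fin q)) (Fin m ⊕ (Fin q ⊕ Fin q)) (MonoidAlgebra ℤ G))
          = fromBlocks (toC (B * adj B + adj (B * adj B))) 0 0 (fromBlocks 0 1 1 0) := by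
        unfold toC
        rw [Matrix.fromBlocks_map, Matrix.fromBlocks_map, toC_one]
        simp only [Matrix.map_zero _ (map_zero _)]
      rw [e6]
      congr 1
      · ext i j g
        simp only [adj_mul, adj_adj, Matrix.zero_mul, add_zero,
          Matrix.mul_diagonal, MonoidAlgebra.coeff_mul_single_apply, inv_one, mul_one, toC_coeff]
        rw [Matrix.add_apply, MonoidAlgebra.coeff_add, Finsupp.add_apply]
        push_cast
        ring
      · simp
      · simp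
      · simp [H]
    rw [e4, kap_unit_right _ hT, kap_stab]
    have e5 : toC (B * adj B) = toC B * sta (toC B) := by
      rw [← toC_adj]
      unfold toC
      rw [toC_mul]
    rw [e5, kap_mul_sta]
  let e : Fin (Fintype.card (Fin m ⊕ (Fin q ⊕ Fin q))) ≃ (Fin m ⊕ (Fin q ⊕ Fin q)) :=
    (Fintype.equivFin _).symm
  refine ⟨_, Q.submatrix e e, fun i j g => h1 (e i) (e j) g, fun i j g => h2 (e i) (e j) g,
    span_re e Q s h3, ?_⟩
  rw [← hk]
  exact kap_re e e (toC Q)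

/-- every value is the kernel dimension of a hermitian matrix of small span -/
theorem hval_small {G : Type} [Group G] {v : ℝ} (hv : Val (Int.castRingHom ℂ).range G v)
    (s : ℝ) (hs0 : 0 < s) (hs : 18 < s ^ 2) :
    ∃ (k : ℕ) (Q : Matrix (Fin k) (Fin k) (MonoidAlgebra ℤ G)), HermZ Q ∧ SmallZ Q ∧
      SpanLE (toReal Q) s ∧ Pool.Agent.W656.VA.kerDim (cx Q) = v := by
  classical
  obtain ⟨m, n, A, hA, hAv⟩ := exists_kerDim hv
  let f : ℂ → ℤ := fun x => if h : ∃ z : ℤ, (z : ℂ) = x then Classical.choose h else 0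
  have hf : ∀ x, (∃ z : ℤ, (z : ℂ) = x) → ((f x : ℤ) : ℂ) = x := by
    intro x h
    simp only [f, dif_pos h]
    exact Classical.choose_spec h
  have hf0 : f 0 = 0 := by
    have := hf 0 ⟨0, by simp⟩
    exact_mod_cast this
  let N0 : Matrix (Fin m) (Fin n) (MonoidAlgebra ℤ G) :=
    Matrix.of fun i j => MonoidAlgebra.ofCoeff ((A i j).mapRange f hf0)
  have hN0 : ofm A = toC N0 := by
    ext i j g
    rw [toC_coeff]
    change A i j g = ((f (A i j g) : ℤ) : ℂ)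
    obtain ⟨z, hz⟩ := hA i j g
    exact (hf _ ⟨z, hz⟩).symm
  obtain ⟨k, Q, h1, h2, h3, hk⟩ := herm_red N0 s hs0 hs
  refine ⟨k, Q, h1, h2, h3, ?_⟩
  rw [kerDim_cx, hk, ← hN0, ← kerDim_kap, hAv]

/-- **Dichotomy for hermitian matrices above the threshold.** -/
theorem hdichotomy {C : (G : Type) → [Group G] → Prop} (hC : ClosedClass C) (s : ℝ)
    (hs0 : 0 < s) (hs : 18 < s ^ 2) :
    (∀ (G : Type) [Group G], C G → ∀ (m n : ℕ) (A : Matrix (Fin m) (Fin n) (G →₀ ℂ)),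
      ∃ z : ℤ, W656.VA.kerDim A = z) ∨
    ∀ r : ℝ, 0 ≤ r → ∃ (G : Type) (_ : Group G), C G ∧ Group.FG G ∧
      ∃ (k : ℕ) (Q : Matrix (Fin k) (Fin k) (MonoidAlgebra ℤ G)), HermZ Q ∧ SmallZ Q ∧
        SpanLE (toReal Q) s ∧ W656.VA.kerDim (cx Q) = r := by
  by_cases h : ∀ (G : Type) [Group G], C G → ∀ (m n : ℕ) (A : Matrix (Fin m) (Fin n) (G →₀ ℂ)),
      ∃ z : ℤ, W656.VA.kerDim A = z
  · exact Or.inl h
  right
  intro r hr
  obtain ⟨H, _, hH, hv⟩ := all_values hC h r hr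
  obtain ⟨K, hK, m, n, A, hA, hAv⟩ := fg_val_sub hv
  have hv' : W656.VA.Val (Int.castRingHom ℂ).range K r := by
    refine ⟨m, n, A, fun k i g => ?_, hAv⟩
    obtain ⟨z, hz⟩ := Subring.mem_bot.1 (hA k i g)
    exact ⟨z, hz⟩
  exact ⟨K, inferInstance, hC.subgroup K H K.subtype K.subtype_injective hH, hK,
    hval_small hv' s hs0 hs⟩

section cx

open ComplexConjugate

variable {G : Type} [Group G] {n : ℕ}

/-- The span of a complex matrix, in terms of coefficient functions. -/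
def SpanC (A : Matrix (Fin n) (Fin n) (G →₀ ℂ)) (s : ℝ) : Prop :=
  ∃ a : ℝ, ∀ (S : Finset (Fin n × G)) (x : Fin n × G → ℂ),
    a * ∑ p ∈ S, ‖x p‖ ^ 2
      ≤ (∑ p ∈ S, ∑ q ∈ S, x p * A p.1 q.1 (p.2⁻¹ * q.2) * conj (x q)).re ∧
    (∑ p ∈ S, ∑ q ∈ S, x p * A p.1 q.1 (p.2⁻¹ * q.2) * conj (x q)).re
      ≤ (a + s) * ∑ p ∈ S, ‖x p‖ ^ 2

theorem spanLE_of_spanC (A : Matrix (Fin n) (Fin n) (G →₀ ℂ)) (s : ℝ) (h : SpanC A s) :
    SpanLE (ofm A) s := by
  classical
  obtain ⟨a, ha⟩ := h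
  refine ⟨a, fun y => ?_⟩
  let S : Finset (G × Fin n) := Finset.univ.biUnion fun i =>
    (y i).coeff.support.image fun g => (g, i)
  let f : G × Fin n → ℂ := fun p => (y p.2).coeff p.1
  have hy : y = rv S f := by
    funext i
    ext g
    rw [rv_coeff]
    split_ifs with h1
    · rfl
    · by_contra h2
      apply h1
      rw [Finset.mem_biUnion]
      exact ⟨i, Finset.mem_univ _, Finset.mem_image_of_mem _ (Finsupp.mem_support_iff.2 h2)⟩
  have h1 := ha (S.map (Equiv.prodComm G (Fin n)).toEmbedding) (fun p => f (p.2, p.1))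
  simp only [Finset.sum_map, Equiv.coe_toEmbedding, Equiv.prodComm_apply, Prod.fst_swap,
    Prod.snd_swap, Prod.mk.eta] at h1
  rw [hy, nsq_rv, quad_rv]
  exact h1

theorem spanC_of_int (Q : Matrix (Fin n) (Fin n) (MonoidAlgebra ℤ G)) (s : ℝ)
    (h : SpanLE (toReal Q) s) : SpanC (cx Q) s := by
  classical
  obtain ⟨a, ha⟩ := h
  refine ⟨a, fun S x => ?_⟩
  have key : ∀ y : Fin n × G → ℝ, a * ∑ p ∈ S, y p ^ 2
      ≤ ∑ p ∈ S, ∑ q ∈ S, y p * ((Q p.1 q.1).coeff (p.2⁻¹ * q.2) : ℝ) * y q ∧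
      ∑ p ∈ S, ∑ q ∈ S, y p * ((Q p.1 q.1).coeff (p.2⁻¹ * q.2) : ℝ) * y q
        ≤ (a + s) * ∑ p ∈ S, y p ^ 2 := by
    intro y
    have h1 := hw_bounds (toReal Q) a s ha (S.map (Equiv.prodComm (Fin n) G).toEmbedding)
      (fun p => y (p.2, p.1))
    simp only [Finset.sum_map, Equiv.coe_toEmbedding, Equiv.prodComm_apply, Prod.fst_swap,
      Prod.snd_swap, Prod.mk.eta, Real.norm_eq_abs, sq_abs, conj_trivial, RCLike.re_to_real, hw,
      toReal_coeff] at h1
    exact h1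
  have h1 := key fun p => (x p).re
  have h2 := key fun p => (x p).im
  have h3 : ∑ p ∈ S, ‖x p‖ ^ 2 = ∑ p ∈ S, (x p).re ^ 2 + ∑ p ∈ S, (x p).im ^ 2 := by
    rw [← Finset.sum_add_distrib]
    refine Finset.sum_congr rfl fun p _ => ?_
    rw [← Complex.normSq_eq_norm_sq, Complex.normSq_apply]
    ring
  have h4 : (∑ p ∈ S, ∑ q ∈ S, x p * cx Q p.1 q.1 (p.2⁻¹ * q.2) * conj (x q)).re
      = ∑ p ∈ S, ∑ q ∈ S, (x p).re * ((Q p.1 q.1).coeff (p.2⁻¹ * q.2) : ℝ) * (x q).re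
      + ∑ p ∈ S, ∑ q ∈ S, (x p).im * ((Q p.1 q.1).coeff (p.2⁻¹ * q.2) : ℝ) * (x q).im := by
    rw [Complex.re_sum, ← Finset.sum_add_distrib]
    refine Finset.sum_congr rfl fun p _ => ?_
    rw [Complex.re_sum, ← Finset.sum_add_distrib]
    refine Finset.sum_congr rfl fun q _ => ?_
    have h5 : cx Q p.1 q.1 (p.2⁻¹ * q.2)
        = (((Q p.1 q.1).coeff (p.2⁻¹ * q.2) : ℝ) : ℂ) := by
      change (((Q p.1 q.1).coeff (p.2⁻¹ * q.2) : ℤ) : ℂ) = _
      push_cast
      rfl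
    rw [h5]
    simp only [Complex.mul_re, Complex.mul_im, Complex.ofReal_re, Complex.ofReal_im,
      Complex.conj_re, Complex.conj_im]
    ring
  rw [h3, h4]
  constructor <;> linarith [h1.1, h1.2, h2.1, h2.2]

/-- Below the threshold, with a lower bound for the coefficients. -/
theorem kerDim_span (A : Matrix (Fin n) (Fin n) (G →₀ ℂ)) (δ s : ℝ) (hδ : 0 < δ)
    (hherm : ∀ i j g, A j i g⁻¹ = conj (A i j g))
    (hbig : ∀ i j g, A i j g ≠ 0 → (i = j ∧ g = 1) ∨ δ ≤ ‖A i j g‖)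
    (hs : s ^ 2 ≤ 18 * δ ^ 2) (hsp : SpanC A s) (B : Matrix (Fin n) (Fin n) (G →₀ ℂ))
    (hB : ∀ i j g, B i j g ≠ 0 → (i = j ∧ g = 1) ∨ A i j g ≠ 0) :
    W656.VA.kerDim B ∈ Lam G := by
  classical
  rw [kerDim_kap]
  let A' : Matrix (Fin n) (Fin n) (G →₀ ℂ) := fun i j => ((δ⁻¹ : ℝ) : ℂ) • A i j
  have hA' : ∀ i j g, (ofm A' i j).coeff g = ((δ⁻¹ : ℝ) : ℂ) * A i j g := fun i j g => rfl
  have hd0 : ((δ⁻¹ : ℝ) : ℂ) ≠ 0 := by
    rw [Ne, Complex.ofReal_eq_zero]
    exact inv_ne_zero hδ.ne'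
  refine kap_span (ofm A') ?_ ?_ (s / δ) ?_ ?_ (ofm B) ?_
  · intro i j g
    rw [hA', hA', hherm, map_mul, Complex.conj_ofReal]
  · intro i j g h
    rw [hA'] at h ⊢
    rcases hbig i j g (right_ne_zero_of_mul h) with h1 | h1
    · exact Or.inl h1
    · right
      rw [norm_mul, Complex.norm_real, Real.norm_eq_abs, abs_of_pos (inv_pos.2 hδ)]
      calc 1 = δ⁻¹ * δ := by rw [inv_mul_cancel₀ hδ.ne']
        _ ≤ _ := mul_le_mul_of_nonneg_left h1 (inv_nonneg.2 hδ.le)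
  · rw [div_pow, div_le_iff₀ (by positivity)]
    exact hs
  · apply spanLE_of_spanC
    obtain ⟨a, ha⟩ := hsp
    refine ⟨a / δ, fun S x => ?_⟩
    have h1 := ha S x
    have h2 : ∑ p ∈ S, ∑ q ∈ S, x p * A' p.1 q.1 (p.2⁻¹ * q.2) * conj (x q)
        = ((δ⁻¹ : ℝ) : ℂ) * ∑ p ∈ S, ∑ q ∈ S, x p * A p.1 q.1 (p.2⁻¹ * q.2) * conj (x q) := by
      rw [Finset.mul_sum]
      refine Finset.sum_congr rfl fun p _ => ?_
      rw [Finset.mul_sum]
      refine Finset.sum_congr rfl fun q _ => ?_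
      have h3 : A' p.1 q.1 (p.2⁻¹ * q.2) = ((δ⁻¹ : ℝ) : ℂ) * A p.1 q.1 (p.2⁻¹ * q.2) := rfl
      rw [h3]
      ring
    rw [h2, Complex.re_ofReal_mul]
    have h4 : a / δ * ∑ p ∈ S, ‖x p‖ ^ 2 = δ⁻¹ * (a * ∑ p ∈ S, ‖x p‖ ^ 2) := by
      field_simp
    have h5 : (a / δ + s / δ) * ∑ p ∈ S, ‖x p‖ ^ 2 = δ⁻¹ * ((a + s) * ∑ p ∈ S, ‖x p‖ ^ 2) := by
      field_simp
    rw [h4, h5]
    exact ⟨mul_le_mul_of_nonneg_left h1.1 (inv_nonneg.2 hδ.le),
      mul_le_mul_of_nonneg_left h1.2 (inv_nonneg.2 hδ.le)⟩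
  · intro i j g h
    rcases hB i j g h with h1 | h1
    · exact Or.inl h1
    · right
      rw [hA']
      exact mul_ne_zero hd0 h1

end cx

end Pool.Agent.U731.SP
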