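import Pool.Agent.U731.SP.WhUp
import Pool.Agent.N510.CT.IForm

set_option autoImplicit false
set_option linter.style.haveILetI false
set_option linter.unusedSectionVars false

/-! Quadratic and hermitian forms over integral group rings whose adjoint has its spectrum in an
interval of length at most `3 √2`. -/

namespace Pool.Agent.U731.SP

open Matrix TH57.Thr TH6.LF TH6.PF Pool.Agent.N510

variable {G : Type} [Group G] {ι : Type}

/-- Forms whose symmetrisation has a block structure. -/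
theorem forms_of_struct [Fintype ι] [DecidableEq ι] (Q : Subgroup G → Prop)
    (ψ : Matrix ι ι (MonoidAlgebra ℤ G)) (ρ : ι → ι) (u : ι → G) (C : ι → Subgroup G)
    (hC : ∀ a, Q (C a))
    (hstr : ∀ i j h, ((ψ + (1 : ℤ) • adj ψ) i j).coeff h ≠ 0 →
      ρ i = ρ j ∧ u i * h * (u j)⁻¹ ∈ C (ρ i)) :
    ∃ (θ : ∀ a, Matrix {i // ρ i = a} {i // ρ i = a} (MonoidAlgebra ℤ (C a)))
      (χ : Matrix ι ι (MonoidAlgebra ℤ G)),
      (∀ a, Q (C a)) ∧
      Dm u * ψ * adj (Dm u) = indSum ρ C θ + (χ - (1 : ℤ) • adj χ) ∧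
      (IsUnit (ψ + (1 : ℤ) • adj ψ) → ∀ a, IsUnit (θ a + (1 : ℤ) • adj (θ a))) := by
  classical
  obtain ⟨ε, hε1⟩ : ∃ ε : ℤ, ε = 1 := ⟨1, rfl⟩
  rw [← hε1] at hstr ⊢
  have hε : ε = 1 ∨ ε = -1 := Or.inl hε1
  have h2 : ε = 1 ∨ ∀ g : G, g * g = 1 → g = 1 := Or.inl hε1
  have hεε : ε * ε = 1 := by rcases hε with rfl | rfl <;> norm_num
  have hε0 : ε ≠ 0 := by rcases hε with rfl | rfl <;> norm_num
  have hA : ∀ i j g, ((ψ + ε • adj ψ) i j).coeff g
      = (ψ i j).coeff g + ε * (ψ j i).coeff g⁻¹ := by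
    intro i j g
    rw [Matrix.add_apply, coeff_add', Matrix.smul_apply, coeff_zsmul', coeff_adj]
  set φ := Dm u * ψ * adj (Dm u) with hφ
  have hφc : ∀ i j g, (φ i j).coeff g = (ψ i j).coeff ((u i)⁻¹ * g * u j) := Dm_mul u ψ
  have hB : ∀ i j g, (φ i j).coeff g + ε * (φ j i).coeff g⁻¹ ≠ 0 → ρ i = ρ j ∧ g ∈ C (ρ i) := by
    intro i j g hne
    have h1 := hstr i j ((u i)⁻¹ * g * u j) (by
      rw [hA]
      rw [hφc, hφc] at hne
      have h2 : (u j)⁻¹ * g⁻¹ * u i = ((u i)⁻¹ * g * u j)⁻¹ := by group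
      rwa [h2] at hne)
    have h3 : u i * ((u i)⁻¹ * g * u j) * (u j)⁻¹ = g := by group
    rwa [h3] at h1
  let θ : ∀ a, Matrix {i // ρ i = a} {i // ρ i = a} (MonoidAlgebra ℤ (C a)) := fun a i j =>
    MonoidAlgebra.comapDomain (C a).subtype (C a).subtype_injective (φ i.1 j.1)
  have hS : ∀ i j g, ((indSum ρ C θ) i j).coeff g
      = if ρ j = ρ i ∧ g ∈ C (ρ i) then (φ i j).coeff g else 0 := by
    intro i j g
    unfold indSum
    by_cases h : ρ j = ρ i
    · rw [dif_pos h]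
      change (MonoidAlgebra.mapDomain (C (ρ i)).subtype (MonoidAlgebra.comapDomain
        (C (ρ i)).subtype (C (ρ i)).subtype_injective (φ i j))).coeff g = _
      rw [coeff_map_comap]
      by_cases h2 : g ∈ C (ρ i)
      · rw [if_pos h2, if_pos ⟨h, h2⟩]
      · rw [if_neg h2, if_neg (fun h3 => h2 h3.2)]
    · rw [dif_neg h, if_neg (fun h3 => h h3.1)]
      rfl
  have hsymm : ∀ i j g, (ρ j = ρ i ∧ g ∈ C (ρ i)) ↔ (ρ i = ρ j ∧ g⁻¹ ∈ C (ρ j)) := by
    intro i j g
    constructor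
    · rintro ⟨h1, h2⟩
      exact ⟨h1.symm, by rw [h1]; exact inv_mem h2⟩
    · rintro ⟨h1, h2⟩
      refine ⟨h1.symm, ?_⟩
      rw [h1]
      have := inv_mem h2
      rwa [inv_inv] at this
  obtain ⟨χ, hχ⟩ := CT.exists_alt2 ε h2 (φ - indSum ρ C θ)
    (fun i j g => by
      rw [Matrix.sub_apply, Matrix.sub_apply, coeff_sub', coeff_sub', hS, hS]
      by_cases h : ρ j = ρ i ∧ g ∈ C (ρ i)
      · rw [if_pos h, if_pos ((hsymm i j g).1 h)]
        ring
      · rw [if_neg h, if_neg (fun h' => h ((hsymm i j g).2 h'))]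
        by_contra hcon
        have h3 := hB i j g (by simpa using hcon)
        exact h ⟨h3.1.symm, h3.2⟩)
    (fun i => by
      rw [Matrix.sub_apply, coeff_sub', hS, if_pos ⟨rfl, one_mem _⟩, sub_self])
  refine ⟨θ, χ, hC, ?_, ?_⟩
  · rw [← hχ]
    abel
  · intro hunit a
    -- the matrix of the adjoint of `φ`
    set B := φ + ε • adj φ with hBd
    have hBA : B = Dm u * (ψ + ε • adj ψ) * adj (Dm u) := by
      rw [hBd, hφ, adj_mul, adj_mul, adj_adj, Matrix.mul_add, Matrix.add_mul,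
        Matrix.mul_smul, Matrix.smul_mul, Matrix.mul_assoc (Dm u) (adj ψ)]
    have hDu := Dm_mul_inv u
    obtain ⟨v, hv⟩ := hunit
    have hBN : B * (Dm u * (↑v⁻¹ : Matrix ι ι (MonoidAlgebra ℤ G)) * adj (Dm u)) = 1 := by
      rw [hBA, ← hv]
      calc Dm u * (v : Matrix ι ι (MonoidAlgebra ℤ G)) * adj (Dm u)
            * (Dm u * (↑v⁻¹ : Matrix ι ι (MonoidAlgebra ℤ G)) * adj (Dm u))
          = Dm u * ((v : Matrix ι ι (MonoidAlgebra ℤ G)) * ((adj (Dm u) * Dm u)
            * (↑v⁻¹ : Matrix ι ι (MonoidAlgebra ℤ G)))) * adj (Dm u) := by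
              simp only [Matrix.mul_assoc]
        _ = 1 := by
              rw [hDu.2, Matrix.one_mul, Units.mul_inv, Matrix.mul_one, hDu.1]
    have hNB : (Dm u * (↑v⁻¹ : Matrix ι ι (MonoidAlgebra ℤ G)) * adj (Dm u)) * B = 1 := by
      rw [hBA, ← hv]
      calc (Dm u * (↑v⁻¹ : Matrix ι ι (MonoidAlgebra ℤ G)) * adj (Dm u))
            * (Dm u * (v : Matrix ι ι (MonoidAlgebra ℤ G)) * adj (Dm u))
          = Dm u * ((↑v⁻¹ : Matrix ι ι (MonoidAlgebra ℤ G)) * ((adj (Dm u) * Dm u)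
            * (v : Matrix ι ι (MonoidAlgebra ℤ G)))) * adj (Dm u) := by
              simp only [Matrix.mul_assoc]
        _ = 1 := by
              rw [hDu.2, Matrix.one_mul, Units.inv_mul, Matrix.mul_one, hDu.1]
    have hBc : ∀ i j g, (B i j).coeff g = (φ i j).coeff g + ε * (φ j i).coeff g⁻¹ := by
      intro i j g
      rw [hBd, Matrix.add_apply, coeff_add', Matrix.smul_apply, coeff_zsmul', coeff_adj]
    have hBρ : ∀ i j, B i j ≠ 0 → ρ i = ρ j := by
      intro i j hne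
      by_contra hcon
      apply hne
      ext g
      by_contra h0
      rw [MonoidAlgebra.coeff_zero, Finsupp.coe_zero, Pi.zero_apply, hBc] at h0
      exact hcon (hB i j g h0).1
    have hblk : mpm (MonoidAlgebra.mapDomainRingHom ℤ (C a).subtype) (θ a + ε • adj (θ a))
        = B.submatrix Subtype.val Subtype.val := by
      ext i j g
      change (MonoidAlgebra.mapDomain (C a).subtype ((θ a + ε • adj (θ a)) i j)).coeff g
        = (B i.1 j.1).coeff g
      have e1 : (θ a + ε • adj (θ a)) i j = MonoidAlgebra.comapDomain (C a).subtype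
          (C a).subtype_injective (B i.1 j.1) := by
        ext k
        rw [Matrix.add_apply, coeff_add', Matrix.smul_apply, coeff_zsmul', coeff_adj]
        simp only [θ, MonoidAlgebra.coeff_comapDomain, Finsupp.comapDomain_apply]
        rw [hBc]
        rfl
      rw [e1, coeff_map_comap]
      split_ifs with h
      · rfl
      · by_contra h0
        apply h
        have h0' : (B i.1 j.1).coeff g ≠ 0 := fun h' => h0 h'.symm
        rw [hBc] at h0'
        have := (hB i.1 j.1 g h0').2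
        rwa [i.2] at this
    apply isUnit_of_isUnit_map
    rw [hblk]
    exact ⟨⟨_, _, mul_block ρ a B _ hBρ hBN, mul_block' ρ a B _ hBρ hNB⟩, rfl⟩


/-- The adjoint of a quadratic form is hermitian. -/
theorem hermZ_sym (ψ : Matrix ι ι (MonoidAlgebra ℤ G)) : HermZ (ψ + adj ψ) := by
  intro i j g
  rw [Matrix.add_apply, Matrix.add_apply, coeff_add', coeff_add', coeff_adj, coeff_adj, inv_inv,
    add_comm]

/-- **Quadratic forms of small span over arbitrary groups.** -/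
theorem forms_span [Fintype ι] [DecidableEq ι] (ψ : Matrix ι ι (MonoidAlgebra ℤ G)) (s : ℝ)
    (hs : s ^ 2 ≤ 18) (hsp : SpanLE (toReal (ψ + adj ψ)) s) :
    ∃ (ρ : ι → ι) (u : ι → G) (C : ι → Subgroup G)
      (θ : ∀ a, Matrix {i // ρ i = a} {i // ρ i = a} (MonoidAlgebra ℤ (C a)))
      (χ : Matrix ι ι (MonoidAlgebra ℤ G)),
      (∀ a, IsVC (C a)) ∧
      Dm u * ψ * adj (Dm u) = indSum ρ C θ + (χ - adj χ) ∧
      (IsUnit (ψ + adj ψ) → ∀ a, IsUnit (θ a + adj (θ a))) := by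
  obtain ⟨ρ, u, C, hC, hst⟩ := herm_struct (toReal (ψ + adj ψ)) (herm_toReal (hermZ_sym ψ))
    (big_toReal _) s hs hsp
  obtain ⟨θ, χ, h1, h2, h3⟩ := forms_of_struct (fun C => IsVC C) ψ ρ u C hC (fun i j h hne => by
    rw [one_smul] at hne
    refine hst i j h ?_
    rw [toReal_coeff]
    exact_mod_cast hne)
  simp only [one_smul] at h2 h3
  exact ⟨ρ, u, C, θ, χ, h1, h2, h3⟩

/-- **Quadratic forms of small span over torsion-free groups.** -/
theorem forms_span_tf (htf : ∀ g : G, ∀ n : ℕ, 0 < n → g ^ n = 1 → g = 1) [Fintype ι]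
    [DecidableEq ι] (ψ : Matrix ι ι (MonoidAlgebra ℤ G)) (s : ℝ)
    (hs : s ^ 2 ≤ 18) (hsp : SpanLE (toReal (ψ + adj ψ)) s) :
    ∃ (ρ : ι → ι) (u : ι → G) (C : ι → Subgroup G)
      (θ : ∀ a, Matrix {i // ρ i = a} {i // ρ i = a} (MonoidAlgebra ℤ (C a)))
      (χ : Matrix ι ι (MonoidAlgebra ℤ G)),
      (∀ a, IsCyclic (C a)) ∧
      Dm u * ψ * adj (Dm u) = indSum ρ C θ + (χ - adj χ) ∧
      (IsUnit (ψ + adj ψ) → ∀ a, IsUnit (θ a + adj (θ a))) := by
  obtain ⟨ρ, u, C, hC, hst⟩ := herm_struct_tf (toReal (ψ + adj ψ)) (herm_toReal (hermZ_sym ψ))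
    htf (big_toReal _) s hs hsp
  obtain ⟨θ, χ, h1, h2, h3⟩ := forms_of_struct (fun C => IsCyclic C) ψ ρ u C hC
    (fun i j h hne => by
      rw [one_smul] at hne
      refine hst i j h ?_
      rw [toReal_coeff]
      exact_mod_cast hne)
  simp only [one_smul] at h2 h3
  exact ⟨ρ, u, C, θ, χ, h1, h2, h3⟩

/-- an integral matrix as a matrix over the group ring -/
noncomputable def constM (G : Type) [Group G] (Ψ : Matrix ι ι ℤ) :
    Matrix ι ι (MonoidAlgebra ℤ G) := Ψ.map fun z => MonoidAlgebra.single 1 z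

/-- **Quadratic forms of span less than four over torsion-free groups.** -/
theorem forms_span4 (htf : ∀ g : G, ∀ n : ℕ, 0 < n → g ^ n = 1 → g = 1) [Fintype ι]
    [DecidableEq ι] (ψ : Matrix ι ι (MonoidAlgebra ℤ G)) (s : ℝ)
    (hs : s < 4) (hsp : SpanLE (toReal (ψ + adj ψ)) s) :
    ∃ (u : ι → G) (Ψ : Matrix ι ι ℤ) (χ : Matrix ι ι (MonoidAlgebra ℤ G)),
      Dm u * ψ * adj (Dm u) = constM G Ψ + (χ - adj χ) ∧
      (IsUnit (ψ + adj ψ) → IsUnit (Ψ + Ψ.transpose)) := by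
  classical
  obtain ⟨ρ, u, hst⟩ := herm_struct4 (toReal (ψ + adj ψ)) (herm_toReal (hermZ_sym ψ)) htf
    (big_toReal _) s hs hsp
  have hst' : ∀ i j h, ((ψ + adj ψ) i j).coeff h ≠ 0 → h = (u i)⁻¹ * u j := by
    intro i j h hne
    refine (hst i j h ?_).2
    rw [toReal_coeff]
    exact_mod_cast hne
  set φ := Dm u * ψ * adj (Dm u) with hφ
  have hφc : ∀ i j g, (φ i j).coeff g = (ψ i j).coeff ((u i)⁻¹ * g * u j) := Dm_mul u ψ
  have hA : ∀ i j g, ((ψ + adj ψ) i j).coeff g = (ψ i j).coeff g + (ψ j i).coeff g⁻¹ := by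
    intro i j g
    rw [Matrix.add_apply, coeff_add', coeff_adj]
  have hB : ∀ i j g, (φ i j).coeff g + (φ j i).coeff g⁻¹ ≠ 0 → g = 1 := by
    intro i j g hne
    have h1 := hst' i j ((u i)⁻¹ * g * u j) (by
      rw [hA]
      rw [hφc, hφc] at hne
      have h2 : (u j)⁻¹ * g⁻¹ * u i = ((u i)⁻¹ * g * u j)⁻¹ := by group
      rwa [h2] at hne)
    have h3 : g = u i * ((u i)⁻¹ * g * u j) * (u j)⁻¹ := by group
    rw [h3, h1]
    group
  let Ψ : Matrix ι ι ℤ := Matrix.of fun i j => (φ i j).coeff 1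
  have hΨc : ∀ i j g, ((constM G Ψ) i j).coeff g = if g = 1 then (φ i j).coeff g else 0 := by
    intro i j g
    change (MonoidAlgebra.single (1 : G) ((φ i j).coeff 1)).coeff g = _
    rw [MonoidAlgebra.coeff_single, Finsupp.single_apply]
    by_cases h : g = 1
    · rw [if_pos h, if_pos h.symm, h]
    · rw [if_neg h, if_neg (Ne.symm h)]
  obtain ⟨χ, hχ⟩ := CT.exists_alt2 1 (Or.inl rfl) (φ - constM G Ψ)
    (fun i j g => by
      rw [Matrix.sub_apply, Matrix.sub_apply, coeff_sub', coeff_sub', hΨc, hΨc]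
      by_cases h : g = 1
      · subst h
        simp
      · rw [if_neg h, if_neg (fun h' => h (inv_eq_one.1 h')), one_mul, sub_zero, sub_zero]
        by_contra hcon
        exact h (hB i j g hcon))
    (fun i => by
      rw [Matrix.sub_apply, coeff_sub', hΨc, if_pos rfl, sub_self])
  rw [one_smul] at hχ
  refine ⟨u, Ψ, χ, ?_, ?_⟩
  · rw [← hχ]
    abel
  · intro hunit
    have hDu := Dm_mul_inv u
    have hBA : φ + adj φ = Dm u * (ψ + adj ψ) * adj (Dm u) := by
      rw [hφ, adj_mul, adj_mul, adj_adj, Matrix.mul_add, Matrix.add_mul,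
        Matrix.mul_assoc (Dm u) (adj ψ)]
    have hu1 : IsUnit (φ + adj φ) := by
      rw [hBA]
      have k1 : IsUnit (Dm u) := ⟨⟨_, _, hDu.1, hDu.2⟩, rfl⟩
      have k2 : IsUnit (adj (Dm u)) := ⟨⟨_, _, hDu.2, hDu.1⟩, rfl⟩
      exact IsUnit.mul (IsUnit.mul k1 hunit) k2
    let au : MonoidAlgebra ℤ G →+* ℤ := (MonoidAlgebra.lift ℤ ℤ G 1).toRingHom
    have h1 : Ψ + Ψ.transpose = mpm (κ := ι) au (φ + adj φ) := by
      ext i j
      change Ψ i j + Ψ j i = au ((φ + adj φ) i j)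
      have h2 : (φ + adj φ) i j = MonoidAlgebra.single 1 (Ψ i j + Ψ j i) := by
        ext g
        rw [Matrix.add_apply, coeff_add', coeff_adj, MonoidAlgebra.coeff_single,
          Finsupp.single_apply]
        by_cases h : 1 = g
        · rw [if_pos h, ← h, inv_one]
          rfl
        · rw [if_neg h]
          by_contra h3
          exact h (hB i j g h3).symm
      rw [h2]
      simp [au]
    rw [h1]
    exact hu1.map (mpm (κ := ι) au)

/-- Reduction of quadratic forms. -/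
theorem even_red2 {G : Type} [Group G] {n : ℕ} (ψ : Matrix (Fin n) (Fin n) (MonoidAlgebra ℤ G))
    (s : ℝ) (hs0 : 0 < s) (hs : 18 < s ^ 2) :
    ∃ (m : ℕ) (E : (Matrix (Fin n ⊕ (Fin m ⊕ Fin m)) (Fin n ⊕ (Fin m ⊕ Fin m))
        (MonoidAlgebra ℤ G))ˣ),
      E ∈ commutator (Matrix (Fin n ⊕ (Fin m ⊕ Fin m)) (Fin n ⊕ (Fin m ⊕ Fin m))
        (MonoidAlgebra ℤ G))ˣ ∧
      SmallZ (E.val * addHyp (Fin m) ψ * adj E.val) ∧
      SmallZ (E.val * addHyp (Fin m) ψ * adj E.val + adj (E.val * addHyp (Fin m) ψ * adj E.val)) ∧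
      SpanLE (toReal (E.val * addHyp (Fin m) ψ * adj E.val
        + adj (E.val * addHyp (Fin m) ψ * adj E.val))) s := by
  have hc : 9 / 2 < (s / 2) ^ 2 := by rw [div_pow]; linarith
  obtain ⟨m, P, h1, h2, h3, h4⟩ := LT.sform_reduction_fin (1 : G →* ℤˣ) CT.gens_int ψ (s / 2)
    (by positivity) hc
  rw [sadj_one_eq] at h2 h3 h4
  refine ⟨m, P, h1, ?_⟩
  set φ := P.val * addHyp (Fin m) ψ * adj P.val with hφd
  have hφ : SmallZ φ := by
    intro i j g
    by_cases h0 : (φ i j).coeff g = 0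
    · exact Or.inl h0
    · exact Or.inr (h3 i j g h0)
  have hco : ∀ i j g, ((φ + adj φ) i j).coeff g = (φ i j).coeff g + (φ j i).coeff g⁻¹ := by
    intro i j g
    rw [Matrix.add_apply, coeff_add', coeff_adj]
  have hsm : SmallZ (φ + adj φ) := by
    intro i j g
    rw [hco]
    rcases h2 i j with h | h
    · rw [h, MonoidAlgebra.coeff_zero, Finsupp.coe_zero, Pi.zero_apply, zero_add]
      exact hφ j i g⁻¹
    · rw [h, MonoidAlgebra.coeff_zero, Finsupp.coe_zero, Pi.zero_apply, add_zero]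
      exact hφ i j g
  refine ⟨hφ, hsm, ?_⟩
  have hN : NormLE (φ + adj φ) (s / 2) := by
    refine CT.normLE_of_dom _ (symPat φ) (fun i j g => ?_) (s / 2) h4
    have hi : ∀ r : ℤ, (r = 0 ∨ r = 1 ∨ r = -1) → |r| = ind r := by
      intro r hr
      by_cases h0 : r = 0
      · rw [h0, ind_zero, abs_zero]
      · rw [ind_of_ne h0]
        rcases hr with h | h | h
        · exact absurd h h0
        · rw [h, abs_one]
        · rw [h, abs_neg, abs_one]
    rw [hco, coeff_symPat, ← hi _ (hφ i j g), ← hi _ (hφ j i g⁻¹)]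
    exact abs_add_le _ _
  have := span_of_norm (φ + adj φ) (s / 2) (by positivity) hN
  rwa [mul_div_cancel₀ s two_ne_zero] at this

end Pool.Agent.U731.SP
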