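import Pool.Agent.TH57.Thr.VC
import Pool.Agent.N510.CT.Tri

set_option autoImplicit false
set_option linter.style.haveILetI false
set_option linter.unusedSectionVars false

/-! Tripods in graphs which need not be bipartite. -/

namespace Pool.Agent.U731.SP

open SimpleGraph TH57.Thr

variable {V : Type*}

/-- The graph contains a tripod with arms of length `N`, which is induced up to one edge joining
the first vertices of two of the arms, and whose third arm is a geodesic running away from the two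
others. -/
def HasTri (Γ : SimpleGraph V) (N : ℕ) : Prop :=
  ∃ (a : Fin 3 → ℕ → V) (o : V), (∀ i, a i 0 = o) ∧
    (∀ i j k l, k ≤ N → l ≤ N → a i k = a j l → (k = 0 ∧ l = 0) ∨ (i = j ∧ k = l)) ∧
    (∀ i k, k < N → Γ.Adj (a i k) (a i (k + 1))) ∧
    (∀ i k l, k ≤ N → l ≤ N → k + 1 ≠ l → l + 1 ≠ k → ¬ Γ.Adj (a i k) (a i l)) ∧
    (∀ i j k l, i ≠ j → 1 ≤ k → k ≤ N → 1 ≤ l → l ≤ N → (k ≠ 1 ∨ l ≠ 1) →
      ¬ Γ.Adj (a i k) (a j l)) ∧
    (∀ j k l, j ≠ 2 → k ≤ N → l ≤ N → k ≤ Γ.dist (a 2 k) (a j l)) ∧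
    (∀ k l, k ≤ N → l ≤ N → Γ.dist (a 2 k) (a 2 l) = (k - l) + (l - k))

/-- Three arms give a tripod. -/
theorem hasTri_of_arms {Γ : SimpleGraph V} (N : ℕ) (x y z : ℕ → V) (hx : x 0 = z 0)
    (hy : y 0 = z 0)
    (ex : ∀ k, k < N → Γ.Adj (x k) (x (k + 1))) (ey : ∀ k, k < N → Γ.Adj (y k) (y (k + 1)))
    (ix : ∀ k l, k < l → l ≤ N → x k ≠ x l) (iy : ∀ k l, k < l → l ≤ N → y k ≠ y l)
    (nx : ∀ k l, k + 1 < l → l ≤ N → ¬ Γ.Adj (x k) (x l))
    (ny : ∀ k l, k + 1 < l → l ≤ N → ¬ Γ.Adj (y k) (y l))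
    (hz : ∀ k l, k ≤ N → l ≤ N → Γ.dist (z k) (z l) = (k - l) + (l - k))
    (ixy : ∀ k l, 1 ≤ k → k ≤ N → 1 ≤ l → l ≤ N → x k ≠ y l)
    (nxy : ∀ k l, 1 ≤ k → k ≤ N → 1 ≤ l → l ≤ N → (k ≠ 1 ∨ l ≠ 1) → ¬ Γ.Adj (x k) (y l))
    (nxz : ∀ k l, 1 ≤ k → k ≤ N → 1 ≤ l → l ≤ N → ¬ Γ.Adj (z k) (x l))
    (nyz : ∀ k l, 1 ≤ k → k ≤ N → 1 ≤ l → l ≤ N → ¬ Γ.Adj (z k) (y l))
    (dx : ∀ k l, k ≤ N → l ≤ N → k ≤ Γ.dist (z k) (x l))
    (dy : ∀ k l, k ≤ N → l ≤ N → k ≤ Γ.dist (z k) (y l)) : HasTri Γ N := by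
  have izx : ∀ k l, 1 ≤ k → k ≤ N → l ≤ N → z k ≠ x l := by
    intro k l hk hk2 hl h
    have := dx k l hk2 hl
    rw [h, SimpleGraph.dist_self] at this
    omega
  have izy : ∀ k l, 1 ≤ k → k ≤ N → l ≤ N → z k ≠ y l := by
    intro k l hk hk2 hl h
    have := dy k l hk2 hl
    rw [h, SimpleGraph.dist_self] at this
    omega
  have iz : ∀ k l, k ≤ N → l ≤ N → z k = z l → k = l := by
    intro k l hk hl h
    have := hz k l hk hl
    rw [h, SimpleGraph.dist_self] at this
    omega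
  refine ⟨![x, y, z], z 0, ?_, ?_, ?_, ?_, ?_, ?_, ?_⟩
  · intro i
    fin_cases i
    · exact hx
    · exact hy
    · rfl
  · intro i j k l hk hl h
    rcases Nat.eq_zero_or_pos k with hk0 | hk0
    · rcases Nat.eq_zero_or_pos l with hl0 | hl0
      · exact Or.inl ⟨hk0, hl0⟩
      · exfalso
        subst hk0
        have e : (![x, y, z] i) 0 = z 0 := by
          fin_cases i
          · exact hx
          · exact hy
          · rfl
        rw [e] at h
        fin_cases j
        · exact ix 0 l hl0 hl (hx.trans h)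
        · exact iy 0 l hl0 hl (hy.trans h)
        · have := iz 0 l (by omega) hl h
          omega
    · rcases Nat.eq_zero_or_pos l with hl0 | hl0
      · exfalso
        subst hl0
        have e : (![x, y, z] j) 0 = z 0 := by
          fin_cases j
          · exact hx
          · exact hy
          · rfl
        rw [e] at h
        fin_cases i
        · exact ix 0 k hk0 hk (hx.trans h.symm)
        · exact iy 0 k hk0 hk (hy.trans h.symm)
        · have := iz 0 k (by omega) hk h.symm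
          omega
      · right
        fin_cases i <;> fin_cases j
        · refine ⟨rfl, ?_⟩
          by_contra hne
          rcases Nat.lt_or_gt_of_ne hne with h1 | h1
          · exact ix k l h1 hl h
          · exact ix l k h1 hk h.symm
        · exact absurd h (ixy k l hk0 hk hl0 hl)
        · exact absurd h.symm (izx l k hl0 hl hk)
        · exact absurd h.symm (ixy l k hl0 hl hk0 hk)
        · refine ⟨rfl, ?_⟩
          by_contra hne
          rcases Nat.lt_or_gt_of_ne hne with h1 | h1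
          · exact iy k l h1 hl h
          · exact iy l k h1 hk h.symm
        · exact absurd h.symm (izy l k hl0 hl hk)
        · exact absurd h (izx k l hk0 hk hl)
        · exact absurd h (izy k l hk0 hk hl)
        · exact ⟨rfl, iz k l hk hl h⟩
  · intro i k hk
    fin_cases i
    · exact ex k hk
    · exact ey k hk
    · change Γ.Adj (z k) (z (k + 1))
      rw [← SimpleGraph.dist_eq_one_iff_adj, hz k (k + 1) (by omega) (by omega)]
      omega
  · intro i k l hk hl h1 h2 h
    by_cases hkl : k = l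
    · subst hkl
      exact Γ.irrefl h
    fin_cases i
    · rcases Nat.lt_or_gt_of_ne hkl with h3 | h3
      · exact nx k l (by omega) hl h
      · exact nx l k (by omega) hk h.symm
    · rcases Nat.lt_or_gt_of_ne hkl with h3 | h3
      · exact ny k l (by omega) hl h
      · exact ny l k (by omega) hk h.symm
    · have h3 : Γ.dist (z k) (z l) = 1 := SimpleGraph.dist_eq_one_iff_adj.2 h
      rw [hz k l hk hl] at h3
      omega
  · intro i j k l hij hk0 hk hl0 hl hkl h
    fin_cases i <;> fin_cases j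
    · exact hij rfl
    · exact nxy k l hk0 hk hl0 hl hkl h
    · exact nxz l k hl0 hl hk0 hk h.symm
    · exact nxy l k hl0 hl hk0 hk hkl.symm h.symm
    · exact hij rfl
    · exact nyz l k hl0 hl hk0 hk h.symm
    · exact nxz k l hk0 hk hl0 hl h
    · exact nyz k l hk0 hk hl0 hl h
    · exact hij rfl
  · intro j k l hj hk hl
    fin_cases j
    · exact dx k l hk hl
    · exact dy k l hk hl
    · exact absurd rfl hj
  · intro k l hk hl
    exact hz k l hk hl

/-- A vertex far away from the middle part of a geodesic gives a tripod. -/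
theorem tri_of_far {Γ : SimpleGraph V} (hΓ : Γ.Connected) (γ : ℕ → V) (L N : ℕ)
    (hγ : ∀ i j, i ≤ L → j ≤ L → Γ.dist (γ i) (γ j) = (i - j) + (j - i)) (u : V) (i₀ : ℕ)
    (h1 : N + 2 ≤ i₀) (h2 : i₀ + N + 2 ≤ L)
    (hmin : ∀ l, l ≤ L → Γ.dist (γ i₀) u ≤ Γ.dist (γ l) u) (hfar : N + 1 ≤ Γ.dist (γ i₀) u) :
    HasTri Γ N := by
  classical
  obtain ⟨p, hp0, hpk, hp⟩ := exists_geod hΓ (γ i₀) u
  set k := Γ.dist (γ i₀) u with hk
  have hpγ : ∀ a l, a ≤ k → l ≤ L → a ≤ Γ.dist (p a) (γ l) := by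
    intro a l ha hl
    have a1 := hmin l hl
    have a2 := hΓ.dist_triangle (u := γ l) (v := p a) (w := u)
    have a3 := hp a k ha le_rfl
    rw [hpk] at a3
    rw [SimpleGraph.dist_comm (u := p a)]
    omega
  have hγne : ∀ i j, i ≤ L → j ≤ L → i ≠ j → γ i ≠ γ j := by
    intro i j hi hj hij h
    have := hγ i j hi hj
    rw [h, SimpleGraph.dist_self] at this
    omega
  have hγadj : ∀ i, i + 1 ≤ L → Γ.Adj (γ i) (γ (i + 1)) := by
    intro i hi
    rw [← SimpleGraph.dist_eq_one_iff_adj, hγ i (i + 1) (by omega) hi]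
    omega
  have hγnadj : ∀ i j, i ≤ L → j ≤ L → i + 1 < j → ¬ Γ.Adj (γ i) (γ j) := by
    intro i j hi hj hij h
    have := SimpleGraph.dist_eq_one_iff_adj.2 h
    rw [hγ i j hi hj] at this
    omega
  have hadj0 : Γ.Adj (p 1) (γ i₀) := by
    rw [← SimpleGraph.dist_eq_one_iff_adj, ← hp0, hp 1 0 (by omega) (by omega)]
  -- the neighbours of `p 1` on the geodesic
  have hex : ∃ l, l ≤ L ∧ Γ.Adj (p 1) (γ l) := ⟨i₀, by omega, hadj0⟩
  have hlo1 := Nat.find_spec hex
  have hlo2 := @Nat.find_min _ _ hex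
  have hlo3 : Nat.find hex ≤ i₀ := Nat.find_min' hex ⟨by omega, hadj0⟩
  set lo := Nat.find hex with hlo
  have hwin : ∀ l, l ≤ L → Γ.Adj (p 1) (γ l) → lo ≤ l ∧ l ≤ lo + 2 := by
    intro l hl h
    have h3 : lo ≤ l := by
      by_contra hcon
      exact hlo2 (m := l) (by omega) ⟨hl, h⟩
    refine ⟨h3, ?_⟩
    have h4 := hΓ.dist_triangle (u := γ lo) (v := p 1) (w := γ l)
    rw [hγ lo l hlo1.1 hl, SimpleGraph.dist_comm (u := γ lo) (v := p 1),
      SimpleGraph.dist_eq_one_iff_adj.2 h, SimpleGraph.dist_eq_one_iff_adj.2 hlo1.2] at h4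
    omega
  have hi₀ := hwin i₀ (by omega) hadj0
  by_cases hcase : ∃ hi, hi ≤ L ∧ lo < hi ∧ Γ.Adj (p 1) (γ hi) ∧
      ∀ l, l ≤ L → hi < l → ¬ Γ.Adj (p 1) (γ l)
  · obtain ⟨hi, hi1, hi2, hi3, hi4⟩ := hcase
    have hi5 := hwin hi hi1 hi3
    have hnlo : ∀ l, l < lo → ¬ Γ.Adj (p 1) (γ l) := fun l hl h =>
      hlo2 (m := l) hl ⟨by omega, h⟩
    refine hasTri_of_arms N (fun k => if k = 0 then p 1 else γ (lo + 1 - k))
      (fun k => if k = 0 then p 1 else γ (hi - 1 + k)) (fun k => p (k + 1)) (if_pos rfl) (if_pos rfl)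
      ?_ ?_ ?_ ?_ ?_ ?_ ?_ ?_ ?_ ?_ ?_ ?_ ?_
    · intro j hj
      rcases Nat.eq_zero_or_pos j with h | h
      · subst h
        simp only [if_true, Nat.add_one_ne_zero, if_false]
        exact hlo1.2
      · simp only [if_neg (show j ≠ 0 by omega), if_neg (show j + 1 ≠ 0 by omega)]
        have := hγadj (lo + 1 - (j + 1)) (by omega)
        rw [show lo + 1 - (j + 1) + 1 = lo + 1 - j by omega] at this
        exact this.symm
    · intro j hj
      rcases Nat.eq_zero_or_pos j with h | h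
      · subst h
        simp only [if_true, Nat.add_one_ne_zero, if_false]
        rw [show hi - 1 + (0 + 1) = hi by omega]
        exact hi3
      · simp only [if_neg (show j ≠ 0 by omega), if_neg (show j + 1 ≠ 0 by omega)]
        exact hγadj (hi - 1 + j) (by omega)
    · intro j l hjl hl
      simp only [if_neg (show l ≠ 0 by omega)]
      split_ifs with h
      · intro h3
        have := hpγ 1 (lo + 1 - l) (by omega) (by omega)
        rw [h3, SimpleGraph.dist_self] at this
        omega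
      · exact hγne _ _ (by omega) (by omega) (by omega)
    · intro j l hjl hl
      simp only [if_neg (show l ≠ 0 by omega)]
      split_ifs with h
      · intro h3
        have := hpγ 1 (hi - 1 + l) (by omega) (by omega)
        rw [h3, SimpleGraph.dist_self] at this
        omega
      · exact hγne _ _ (by omega) (by omega) (by omega)
    · intro j l hjl hl
      simp only [if_neg (show l ≠ 0 by omega)]
      split_ifs with h
      · exact hnlo _ (by omega)
      · intro h3
        exact hγnadj _ _ (by omega) (by omega) (by omega) h3.symm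
    · intro j l hjl hl
      simp only [if_neg (show l ≠ 0 by omega)]
      split_ifs with h
      · exact hi4 _ (by omega) (by omega)
      · exact hγnadj _ _ (by omega) (by omega) (by omega)
    · intro j l hj hl
      rw [hp _ _ (by omega) (by omega)]
      omega
    · intro j l hj0 hj hl0 hl
      simp only [if_neg (show l ≠ 0 by omega), if_neg (show j ≠ 0 by omega)]
      exact hγne _ _ (by omega) (by omega) (by omega)
    · intro j l hj0 hj hl0 hl hjl
      simp only [if_neg (show l ≠ 0 by omega), if_neg (show j ≠ 0 by omega)]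
      exact hγnadj _ _ (by omega) (by omega) (by omega)
    · intro j l hj0 hj hl0 hl h
      simp only [if_neg (show l ≠ 0 by omega)] at h
      have h3 := SimpleGraph.dist_eq_one_iff_adj.2 h
      have := hpγ (j + 1) (lo + 1 - l) (by omega) (by omega)
      omega
    · intro j l hj0 hj hl0 hl h
      simp only [if_neg (show l ≠ 0 by omega)] at h
      have h3 := SimpleGraph.dist_eq_one_iff_adj.2 h
      have := hpγ (j + 1) (hi - 1 + l) (by omega) (by omega)
      omega
    · intro j l hj hl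
      split_ifs with h
      · rw [hp _ _ (by omega) (by omega)]
        omega
      · have := hpγ (j + 1) (lo + 1 - l) (by omega) (by omega)
        omega
    · intro j l hj hl
      split_ifs with h
      · rw [hp _ _ (by omega) (by omega)]
        omega
      · have := hpγ (j + 1) (hi - 1 + l) (by omega) (by omega)
        omega
  · -- only one neighbour
    have honly : ∀ l, l ≤ L → lo < l → ¬ Γ.Adj (p 1) (γ l) := by
      intro l hl hll h
      apply hcase
      by_cases h5 : Γ.Adj (p 1) (γ (lo + 2)) ∧ lo + 2 ≤ L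
      · exact ⟨lo + 2, h5.2, by omega, h5.1, fun m hm hm2 h6 => by
          have := hwin m hm h6
          omega⟩
      · have h6 := hwin l hl h
        have h7 : l = lo + 1 := by
          by_contra h8
          have h9 : l = lo + 2 := by omega
          exact h5 ⟨by rw [← h9]; exact h, by omega⟩
        refine ⟨lo + 1, by omega, by omega, by rw [← h7]; exact h, fun m hm hm2 h8 => ?_⟩
        have h9 := hwin m hm h8
        have h10 : m = lo + 2 := by omega
        exact h5 ⟨by rw [← h10]; exact h8, by omega⟩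
    have hlo4 : lo = i₀ := by
      by_contra h
      exact honly i₀ (by omega) (by omega) hadj0
    have hB : ∀ l, l ≤ L → l ≠ i₀ → ¬ Γ.Adj (p 1) (γ l) := by
      intro l hl hne h
      have := (hwin l hl h).1
      exact honly l hl (by omega) h
    have hB2 : ∀ j l, 1 ≤ j → j ≤ N → l ≤ L → l ≠ i₀ → ¬ Γ.Adj (p j) (γ l) := by
      intro j l hj0 hj hl hne h
      rcases Nat.lt_or_ge j 2 with h3 | h3
      · have : j = 1 := by omega
        subst this
        exact hB l hl hne h
      · have h4 := hpγ j l (by omega) hl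
        have h5 := SimpleGraph.dist_eq_one_iff_adj.2 h
        omega
    refine hasTri_of_arms N (fun k => γ (i₀ - k)) (fun k => γ (i₀ + k)) p hp0.symm hp0.symm
      ?_ ?_ ?_ ?_ ?_ ?_ ?_ ?_ ?_ ?_ ?_ ?_ ?_
    · intro j hj
      have := hγadj (i₀ - (j + 1)) (by omega)
      rw [show i₀ - (j + 1) + 1 = i₀ - j by omega] at this
      exact this.symm
    · intro j hj
      exact hγadj (i₀ + j) (by omega)
    · intro j l hjl hl
      exact hγne _ _ (by omega) (by omega) (by omega)
    · intro j l hjl hl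
      exact hγne _ _ (by omega) (by omega) (by omega)
    · intro j l hjl hl h3
      exact hγnadj _ _ (by omega) (by omega) (by omega) h3.symm
    · intro j l hjl hl
      exact hγnadj _ _ (by omega) (by omega) (by omega)
    · intro j l hj hl
      exact hp _ _ (by omega) (by omega)
    · intro j l hj0 hj hl0 hl
      exact hγne _ _ (by omega) (by omega) (by omega)
    · intro j l hj0 hj hl0 hl hjl
      exact hγnadj _ _ (by omega) (by omega) (by omega)
    · intro j l hj0 hj hl0 hl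
      exact hB2 j (i₀ - l) hj0 hj (by omega) (by omega)
    · intro j l hj0 hj hl0 hl
      exact hB2 j (i₀ + l) hj0 hj (by omega) (by omega)
    · intro j l hj hl
      exact hpγ j (i₀ - l) (by omega) (by omega)
    · intro j l hj hl
      exact hpγ j (i₀ + l) (by omega) (by omega)

theorem small_ball3 {Γ : SimpleGraph V} (hΓ : Γ.Connected) (Δ : ℕ)
    (hΔ : ∀ v, (Γ.neighborSet v).Finite ∧ (Γ.neighborSet v).ncard ≤ Δ) [Infinite V]
    (N : ℕ) (hN : ¬ HasTri Γ N) (ρ : ℕ) :
    ∃ z, (bl Γ z ρ).ncard ≤ (4 * ρ + 1) * (Δ + 1) ^ N := by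
  classical
  obtain ⟨v⟩ : Nonempty V := inferInstance
  set R := 2 * ρ + N + 2 with hR
  obtain ⟨w, hw⟩ := exists_dist_eq hΓ Δ hΔ v (2 * R)
  obtain ⟨γ, h0, h1, hγ⟩ := exists_geod hΓ v w
  rw [hw] at h1 hγ
  refine ⟨γ R, ?_⟩
  set C : Finset V := (Finset.Icc (R - 2 * ρ) (R + 2 * ρ)).biUnion
    (fun i => (bl_card hΓ Δ hΔ (γ i) N).1.toFinset) with hC
  have hsub : bl Γ (γ R) ρ ⊆ (C : Set V) := by
    intro u hu
    simp only [bl, Set.mem_ofPred_eq] at hu
    obtain ⟨i₀, hi₀, hmin⟩ := Finset.exists_min_image (Finset.range (2 * R + 1))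
      (fun i => Γ.dist (γ i) u) ⟨0, Finset.mem_range.2 (by omega)⟩
    rw [Finset.mem_range] at hi₀
    have hmin' : ∀ l, l ≤ 2 * R → Γ.dist (γ i₀) u ≤ Γ.dist (γ l) u := fun l hl =>
      hmin l (Finset.mem_range.2 (by omega))
    have h2 := hmin' R (by omega)
    have h3 := hΓ.dist_triangle (u := γ i₀) (v := u) (w := γ R)
    rw [hγ i₀ R (by omega) (by omega), SimpleGraph.dist_comm (u := u)] at h3
    have h4 : Γ.dist (γ i₀) u ≤ N := by
      by_contra hcon
      exact hN (tri_of_far hΓ γ (2 * R) N hγ u i₀ (by omega) (by omega) hmin'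
        (by omega))
    rw [Finset.mem_coe, hC, Finset.mem_biUnion]
    refine ⟨i₀, Finset.mem_Icc.2 ⟨by omega, by omega⟩, ?_⟩
    rw [Set.Finite.mem_toFinset]
    exact h4
  calc (bl Γ (γ R) ρ).ncard ≤ (C : Set V).ncard := Set.ncard_le_ncard hsub C.finite_toSet
    _ = C.card := Set.ncard_coe_finset C
    _ ≤ (Finset.Icc (R - 2 * ρ) (R + 2 * ρ)).card * (Δ + 1) ^ N := by
        apply Finset.card_biUnion_le_card_mul
        intro i _
        rw [← Set.ncard_eq_toFinset_card _ (bl_card hΓ Δ hΔ (γ i) N).1]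
        exact (bl_card hΓ Δ hΔ (γ i) N).2
    _ = (4 * ρ + 1) * (Δ + 1) ^ N := by
        rw [Nat.card_Icc]
        congr 1
        omega

section action

variable {S : Type*} [Group S] [MulAction S V]

theorem zpowers_finiteIndex3 {Γ : SimpleGraph V} (hΓ : Γ.Connected) (Δ : ℕ)
    (hΔ : ∀ v, (Γ.neighborSet v).Finite ∧ (Γ.neighborSet v).ncard ≤ Δ)
    (N : ℕ) (hN : ¬ HasTri Γ N)
    (hadj : ∀ (g : S) u v, Γ.Adj u v → Γ.Adj (g • u) (g • v))
    (hfree : ∀ (g : S) (v : V), g • v = v → g = 1)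
    (R : Finset V) (hR : ∀ v : V, ∃ g : S, ∃ r ∈ R, g • r = v)
    (htf : ∀ g : S, ∀ n : ℕ, 0 < n → g ^ n = 1 → g = 1) (s : S) (hs : s ≠ 1) :
    (Subgroup.zpowers s).FiniteIndex := by
  classical
  have htfz : ∀ n : ℤ, s ^ n = 1 → n = 0 := by
    intro n hn
    by_contra hn0
    apply hs
    apply htf s n.natAbs (Int.natAbs_pos.2 hn0)
    rcases Int.natAbs_eq n with h1 | h1
    · rw [h1, zpow_natCast] at hn
      exact hn
    · rw [h1, zpow_neg, zpow_natCast, inv_eq_one] at hn
      exact hn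
  obtain ⟨v⟩ : Nonempty V := hΓ.nonempty
  haveI : Infinite V := by
    refine Infinite.of_injective (fun n : ℤ => s ^ n • v) ?_
    intro n m h
    have h1 : (s ^ m)⁻¹ • s ^ n • v = v := by
      simp only at h
      rw [h, inv_smul_smul]
    rw [← mul_smul] at h1
    have h2 := hfree _ _ h1
    rw [← zpow_neg, ← zpow_add] at h2
    have := htfz _ h2
    omega
  have hds := dist_smul (S := S) hΓ hadj
  obtain ⟨D₀, hD₀⟩ : ∃ D₀ : ℕ, ∀ z : V, ∃ g : S, Γ.dist (g • v) z ≤ D₀ := by
    refine ⟨R.sup (fun r => Γ.dist v r), fun z => ?_⟩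
    obtain ⟨g, r, hr, rfl⟩ := hR z
    refine ⟨g, ?_⟩
    rw [hds]
    exact Finset.le_sup (f := fun r => Γ.dist v r) hr
  set M := (Δ + 1) ^ N with hM
  have hM1 : 1 ≤ M := Nat.one_le_pow _ _ (by omega)
  have hupper : ∀ ρ, (bl Γ v ρ).ncard ≤ (4 * (ρ + D₀) + 1) * M := by
    intro ρ
    obtain ⟨z, hz⟩ := small_ball3 hΓ Δ hΔ N hN (ρ + D₀)
    obtain ⟨g, hg⟩ := hD₀ z
    refine le_trans ?_ hz
    have h1 : (bl Γ v ρ).ncard = ((fun x => g • x) '' bl Γ v ρ).ncard :=
      (Set.ncard_image_of_injective _ (MulAction.injective g)).symm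
    rw [h1]
    apply Set.ncard_le_ncard _ (bl_card hΓ Δ hΔ z (ρ + D₀)).1
    rintro _ ⟨x, hx, rfl⟩
    simp only [bl, Set.mem_ofPred_eq] at hx ⊢
    have := hΓ.dist_triangle (u := z) (v := g • v) (w := g • x)
    rw [hds, SimpleGraph.dist_comm (u := z) (v := g • v)] at this
    omega
  set D := Γ.dist v (s • v) with hD
  have hsn : ∀ n : ℕ, Γ.dist v (s ^ n • v) ≤ n * D := by
    intro n
    induction n with
    | zero => simp
    | succ n ih =>
      have := hΓ.dist_triangle (u := v) (v := s ^ n • v) (w := s ^ (n + 1) • v)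
      rw [pow_succ, mul_smul, hds] at this
      rw [pow_succ, mul_smul, Nat.succ_mul]
      omega
  -- all vertices are close to the orbit
  obtain ⟨r₀, hr₀⟩ : ∃ r₀ : ℕ, ∀ w : V, ∃ n : ℤ, Γ.dist (s ^ n • v) w ≤ r₀ := by
    by_contra hcon
    push Not at hcon
    set r := (4 * (D + 1) + 4 * D₀ + 1) * M with hr
    obtain ⟨w, hw⟩ := hcon r
    -- the nearest orbit point
    obtain ⟨n₀, hn₀⟩ : ∃ n₀ : ℤ, ∀ n : ℤ, Γ.dist (s ^ n₀ • v) w ≤ Γ.dist (s ^ n • v) w := by
      have hne : {d : ℕ | ∃ n : ℤ, Γ.dist (s ^ n • v) w = d}.Nonempty := ⟨_, 0, rfl⟩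
      obtain ⟨n₀, h1⟩ := Nat.sInf_mem hne
      refine ⟨n₀, fun n => ?_⟩
      rw [h1]
      exact Nat.sInf_le ⟨n, rfl⟩
    set w' := (s ^ n₀)⁻¹ • w with hw'
    have hw'1 : ∀ n : ℤ, Γ.dist v w' ≤ Γ.dist (s ^ n • v) w' := by
      intro n
      have e1 : Γ.dist v w' = Γ.dist (s ^ n₀ • v) w := by
        rw [← hds (s ^ n₀) v w', hw', smul_inv_smul]
      have e2 : Γ.dist (s ^ n • v) w' = Γ.dist (s ^ (n₀ + n) • v) w := by
        rw [← hds (s ^ n₀) (s ^ n • v) w', hw', smul_inv_smul, ← mul_smul, ← zpow_add]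
      rw [e1, e2]
      exact hn₀ _
    have hw'2 : r < Γ.dist v w' := by
      have e1 : Γ.dist v w' = Γ.dist (s ^ n₀ • v) w := by
        rw [← hds (s ^ n₀) v w', hw', smul_inv_smul]
      rw [e1]
      exact hw n₀
    obtain ⟨p, hp0, hpk, hp⟩ := exists_geod hΓ v w'
    have hpd : ∀ k, k ≤ r → ∀ n : ℤ, k ≤ Γ.dist (s ^ n • v) (p k) := by
      intro k hk n
      have h1 := hw'1 n
      have h2 := hΓ.dist_triangle (u := s ^ n • v) (v := p k) (w := w')
      have h3 := hp k (Γ.dist v w') (by omega) le_rfl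
      rw [hpk] at h3
      omega
    have hpe : ∀ k, k ≤ r → Γ.dist v (p k) = k := by
      intro k hk
      rw [← hp0, hp 0 k (by omega) (by omega)]
      omega
    let F : Fin (r + 1) × Fin (r + 1) → V := fun x => s ^ (x.1 : ℕ) • p x.2
    have hFinj : Function.Injective F := by
      rintro ⟨n, k⟩ ⟨m, l⟩ h
      simp only [F] at h
      have hk := k.2
      have hl := l.2
      have hkl : ∀ (n m : ℕ) (k l : ℕ), k ≤ r → l ≤ r → s ^ n • p k = s ^ m • p l → l ≤ k := by
        intro n m k l hk hl h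
        have e1 : Γ.dist (s ^ n • v) (s ^ n • p k) = k := by rw [hds, hpe k hk]
        rw [h] at e1
        have e2 : Γ.dist (s ^ ((n : ℤ) - m) • v) (p l) = k := by
          rw [← e1, ← hds (s ^ m) (s ^ ((n : ℤ) - m) • v) (p l), ← mul_smul, ← zpow_natCast s m,
            ← zpow_add, ← zpow_natCast s n]
          congr 3
          ring
        rw [← e2]
        exact hpd l hl _
      have h1 : (k : ℕ) = l := le_antisymm (hkl m n l k (by omega) (by omega) h.symm)
        (hkl n m k l (by omega) (by omega) h)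
      have h2 : k = l := Fin.ext h1
      subst h2
      have h3 : (s ^ (m : ℕ))⁻¹ • s ^ (n : ℕ) • p k = p k := by rw [h, inv_smul_smul]
      rw [← mul_smul] at h3
      have h4 := hfree _ _ h3
      rw [← zpow_natCast, ← zpow_natCast, ← zpow_neg, ← zpow_add] at h4
      have h5 := htfz _ h4
      have h6 : n = m := Fin.ext (by omega)
      rw [h6]
    have hFr : Set.range F ⊆ bl Γ v (r * D + r) := by
      rintro _ ⟨⟨n, k⟩, rfl⟩
      simp only [F, bl, Set.mem_ofPred_eq]
      have h1 := hΓ.dist_triangle (u := v) (v := s ^ (n : ℕ) • v) (w := s ^ (n : ℕ) • p k)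
      rw [hds, hpe k (by have := k.2; omega)] at h1
      have h2 := hsn n
      have h3 : (n : ℕ) * D ≤ r * D := Nat.mul_le_mul_right _ (by have := n.2; omega)
      have h4 := k.2
      omega
    have hc1 : (r + 1) * (r + 1) ≤ (bl Γ v (r * D + r)).ncard := by
      have h1 : (Set.range F).ncard = (r + 1) * (r + 1) := by
        rw [← Set.image_univ, Set.ncard_image_of_injective _ hFinj, Set.ncard_univ]
        simp
      rw [← h1]
      exact Set.ncard_le_ncard hFr (bl_card hΓ Δ hΔ v _).1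
    have hc2 := hupper (r * D + r)
    have hr1 : 1 ≤ r := by
      rw [hr]
      exact Nat.one_le_iff_ne_zero.2 (by positivity)
    have hc3 : (4 * (r * D + r + D₀) + 1) * M ≤ r * r := by
      calc (4 * (r * D + r + D₀) + 1) * M ≤ (r * (4 * (D + 1) + 4 * D₀ + 1)) * M := by
            apply Nat.mul_le_mul_right
            nlinarith
        _ = r * r := by rw [mul_assoc, ← hr]
    nlinarith
  -- finite index
  have hF : {h : S | h • v ∈ bl Γ v r₀}.Finite := by
    apply Set.Finite.of_finite_image (f := fun h : S => h • v)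
    · exact (bl_card hΓ Δ hΔ v r₀).1.subset (by rintro _ ⟨h, hh, rfl⟩; exact hh)
    · intro a _ b _ hab
      have h1 : b⁻¹ • a • v = v := by
        simp only at hab
        rw [hab, inv_smul_smul]
      rw [← mul_smul] at h1
      have := hfree _ _ h1
      rw [inv_mul_eq_one] at this
      exact this.symm
  have hfq : Finite (S ⧸ Subgroup.zpowers s) := by
    haveI : Finite {h : S | h • v ∈ bl Γ v r₀} := hF
    refine Finite.of_surjective (α := {h : S | h • v ∈ bl Γ v r₀})
      (fun h => ((h.1⁻¹ : S) : S ⧸ Subgroup.zpowers s)) ?_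
    intro q
    induction q using QuotientGroup.induction_on with
    | H g =>
      obtain ⟨n, hn⟩ := hr₀ (g⁻¹ • v)
      refine ⟨⟨(s ^ n)⁻¹ * g⁻¹, ?_⟩, ?_⟩
      · simp only [bl, Set.mem_ofPred_eq]
        rw [← hds (s ^ n) v, mul_smul, smul_inv_smul]
        exact hn
      · simp only
        rw [QuotientGroup.eq]
        rw [Subgroup.mem_zpowers_iff]
        exact ⟨-n, by group⟩
  exact Subgroup.finiteIndex_of_finite_quotient

theorem isCyclic_of_noTri3 {Γ : SimpleGraph V} (hΓ : Γ.Connected) (Δ : ℕ)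
    (hΔ : ∀ v, (Γ.neighborSet v).Finite ∧ (Γ.neighborSet v).ncard ≤ Δ)
    (N : ℕ) (hN : ¬ HasTri Γ N)
    (hadj : ∀ (g : S) u v, Γ.Adj u v → Γ.Adj (g • u) (g • v))
    (hfree : ∀ (g : S) (v : V), g • v = v → g = 1)
    (R : Finset V) (hR : ∀ v : V, ∃ g : S, ∃ r ∈ R, g • r = v)
    (htf : ∀ g : S, ∀ n : ℕ, 0 < n → g ^ n = 1 → g = 1) : IsCyclic S :=
  isCyclic_of_zpowers_finiteIndex htf fun s hs =>
    zpowers_finiteIndex3 hΓ Δ hΔ N hN hadj hfree R hR htf s hs

theorem near_biinf3 {Γ : SimpleGraph V} (hΓ : Γ.Connected) (N : ℕ) (hN : ¬ HasTri Γ N)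
    (γ : ℤ → V) (hγ : ∀ i j : ℤ, (Γ.dist (γ i) (γ j) : ℤ) = |i - j|) (u : V) :
    ∃ i : ℤ, Γ.dist (γ i) u ≤ N := by
  obtain ⟨i₀, hi₀⟩ : ∃ i₀ : ℤ, ∀ i : ℤ, Γ.dist (γ i₀) u ≤ Γ.dist (γ i) u := by
    have hne : {d : ℕ | ∃ n : ℤ, Γ.dist (γ n) u = d}.Nonempty := ⟨_, 0, rfl⟩
    obtain ⟨n₀, h1⟩ := Nat.sInf_mem hne
    refine ⟨n₀, fun n => ?_⟩
    rw [h1]
    exact Nat.sInf_le ⟨n, rfl⟩
  refine ⟨i₀, ?_⟩
  by_contra hcon
  apply hN
  refine tri_of_far hΓ (fun k => γ (i₀ - (N + 2) + k)) (2 * (N + 2)) N ?_ u (N + 2)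
    le_rfl (by omega) ?_ ?_
  · intro i j _ _
    have := hγ (i₀ - (N + 2) + i) (i₀ - (N + 2) + j)
    rcases abs_cases ((i₀ - (N + 2) + i) - (i₀ - (N + 2) + j)) with ⟨h3, h4⟩ | ⟨h3, h4⟩ <;> omega
  · intro l _
    rw [show i₀ - ((N : ℤ) + 2) + ((N + 2 : ℕ) : ℤ) = i₀ by push_cast; ring]
    exact hi₀ _
  · rw [show i₀ - ((N : ℤ) + 2) + ((N + 2 : ℕ) : ℤ) = i₀ by push_cast; ring]
    omega

theorem exists_infinite_order3 {Γ : SimpleGraph V} (hΓ : Γ.Connected) (Δ : ℕ)
    (hΔ : ∀ v, (Γ.neighborSet v).Finite ∧ (Γ.neighborSet v).ncard ≤ Δ) [Infinite V]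
    (N : ℕ) (hN : ¬ HasTri Γ N)
    (hadj : ∀ (g : S) u v, Γ.Adj u v → Γ.Adj (g • u) (g • v))
    (R : Finset V) (hR : ∀ v : V, ∃ g : S, ∃ r ∈ R, g • r = v) :
    ∃ s : S, ∀ n : ℤ, s ^ n = 1 → n = 0 := by
  classical
  have hds := dist_smul (S := S) hΓ hadj
  obtain ⟨γ, hγ⟩ := exists_biinf hΓ Δ hΔ hadj R hR
  choose π hπ using near_biinf3 hΓ N hN γ hγ
  -- the coarse coordinate
  have hπd : ∀ u v : V, (Γ.dist u v : ℤ) - 2 * N ≤ |π u - π v| ∧
      |π u - π v| ≤ Γ.dist u v + 2 * N := by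
    intro u v
    rw [← hγ]
    have h1 := hπ u
    have h2 := hπ v
    have t1 := hΓ.dist_triangle (u := γ (π u)) (v := u) (w := γ (π v))
    have t2 := hΓ.dist_triangle (u := u) (v := v) (w := γ (π v))
    have t3 := hΓ.dist_triangle (u := u) (v := γ (π u)) (w := v)
    have t4 := hΓ.dist_triangle (u := γ (π u)) (v := γ (π v)) (w := v)
    rw [SimpleGraph.dist_comm (u := v)] at t2
    rw [SimpleGraph.dist_comm (u := u) (v := γ (π u))] at t3
    omega
  set E : ℤ := 2 * N with hE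
  have hE0 : 0 ≤ E := by omega
  let F : S → ℤ → ℤ := fun g i => π (g • γ i)
  have hF : ∀ g, QI E (F g) := by
    intro g i j
    have h1 := hπd (g • γ i) (g • γ j)
    rw [hds, hγ] at h1
    exact h1
  have hFm : ∀ (g : S) (v : V), |π (g • v) - F g (π v)| ≤ 3 * N := by
    intro g v
    have h1 := (hπd (g • v) (g • γ (π v))).2
    rw [hds, SimpleGraph.dist_comm] at h1
    have h2 := hπ v
    simp only [F]
    omega
  -- large displacements
  have hbig : ∀ M : ℕ, ∃ g : S, M ≤ Γ.dist (γ 0) (g • γ 0) := by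
    intro M
    set D₀ := R.sup (fun r => Γ.dist r (γ 0)) with hD₀
    obtain ⟨u, hu⟩ := exists_dist_eq hΓ Δ hΔ (γ 0) (M + D₀)
    obtain ⟨g, r, hr, rfl⟩ := hR u
    refine ⟨g, ?_⟩
    have h1 := hΓ.dist_triangle (u := γ 0) (v := g • γ 0) (w := g • r)
    rw [hds, SimpleGraph.dist_comm (u := γ 0) (v := r)] at h1
    have h2 : Γ.dist r (γ 0) ≤ D₀ := Finset.le_sup (f := fun r => Γ.dist r (γ 0)) hr
    omega
  -- orientation preserving elements with large displacement
  have claimA : ∀ g : S, (∀ i k : ℤ, 3 * E + 3 ≤ k → k - E ≤ F g (i + k) - F g i ∧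
      F g (i + k) - F g i ≤ k + E) → 10 * N + 1 ≤ Γ.dist (γ 0) (g • γ 0) →
      ∃ s : S, ∀ n : ℤ, s ^ n = 1 → n = 0 := by
    intro g hg hd
    have hF0 : 7 * (N : ℤ) + 1 ≤ |F g 0| := by
      have h1 := (hπd (γ 0) (g • γ 0)).1
      have h2 : |π (γ 0)| ≤ N := by
        have h3 := hπ (γ 0)
        have h4 := hγ (π (γ 0)) 0
        rw [sub_zero] at h4
        omega
      have h5 : |π (γ 0) - π (g • γ 0)| ≤ |π (γ 0)| + |π (g • γ 0)| := abs_sub _ _
      change 7 * (N : ℤ) + 1 ≤ |π (g • γ 0)|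
      omega
    have hlin : ∀ i : ℤ, i - 2 * E ≤ F g i - F g 0 ∧ F g i - F g 0 ≤ i + 2 * E := by
      intro i
      have h1 := hg (-(3 * E + 3) - |i|) (3 * E + 3 + |i| + i) (by
        have := neg_abs_le i
        omega)
      have h2 := hg (-(3 * E + 3) - |i|) (3 * E + 3 + |i|) (by
        have := abs_nonneg i
        omega)
      rw [show -(3 * E + 3) - |i| + (3 * E + 3 + |i| + i) = i by ring] at h1
      rw [show -(3 * E + 3) - |i| + (3 * E + 3 + |i|) = 0 by ring] at h2
      omega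
    let a : ℕ → ℤ := fun n => π (g ^ n • γ 0)
    have ha : ∀ n, |a (n + 1) - F g (a n)| ≤ 3 * N := by
      intro n
      have := hFm g (g ^ n • γ 0)
      rw [← mul_smul, ← pow_succ'] at this
      exact this
    have hmono : (∀ n, a n + 1 ≤ a (n + 1)) ∨ (∀ n, a (n + 1) ≤ a n - 1) := by
      rcases abs_cases (F g 0) with ⟨h3, h4⟩ | ⟨h3, h4⟩
      · left
        intro n
        have h1 := abs_le.1 (ha n)
        have h2 := hlin (a n)
        omega
      · right
        intro n
        have h1 := abs_le.1 (ha n)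
        have h2 := hlin (a n)
        omega
    have hne : ∀ n : ℕ, 0 < n → g ^ n ≠ 1 := by
      intro n hn h1
      have h2 : a n = a 0 := by
        simp only [a]
        rw [h1, pow_zero]
      rcases hmono with h | h
      · have h3 : ∀ m : ℕ, a 0 + m ≤ a m := by
          intro m
          induction m with
          | zero => simp
          | succ m ih => have := h m; push_cast; omega
        have := h3 n
        omega
      · have h3 : ∀ m : ℕ, a m ≤ a 0 - m := by
          intro m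
          induction m with
          | zero => simp
          | succ m ih => have := h m; push_cast; omega
        have := h3 n
        omega
    refine ⟨g, fun n hn => ?_⟩
    by_contra hn0
    apply hne n.natAbs (Int.natAbs_pos.2 hn0)
    rcases Int.natAbs_eq n with h1 | h1
    · rw [h1, zpow_natCast] at hn
      exact hn
    · rw [h1, zpow_neg, zpow_natCast, inv_eq_one] at hn
      exact hn
  obtain ⟨g₁, hg₁⟩ := hbig (10 * N + 1)
  obtain ⟨g₂, hg₂⟩ := hbig (10 * N + 1 + Γ.dist (γ 0) (g₁ • γ 0))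
  rcases (hF g₁).orient hE0 with h1 | h1
  · exact claimA g₁ h1 hg₁
  rcases (hF g₂).orient hE0 with h2 | h2
  · exact claimA g₂ h2 (by omega)
  rcases (hF (g₂ * g₁)).orient hE0 with h3 | h3
  · refine claimA (g₂ * g₁) h3 ?_
    have t1 := hΓ.dist_triangle (u := γ 0) (v := (g₂ * g₁) • γ 0) (w := g₂ • γ 0)
    rw [mul_smul, hds, SimpleGraph.dist_comm (u := g₁ • γ 0)] at t1
    rw [mul_smul]
    omega
  · exfalso
    have c1 : ∀ i : ℤ, |F (g₂ * g₁) i - F g₂ (F g₁ i)| ≤ 3 * N := by
      intro i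
      have := hFm g₂ (g₁ • γ i)
      rw [← mul_smul] at this
      exact this
    set k : ℤ := 10 * E + 10 with hk
    have b1 := h1 0 k (by omega)
    rw [zero_add] at b1
    have b3 := h3 0 k (by omega)
    rw [zero_add] at b3
    have b2 := h2 (F g₁ k) (F g₁ 0 - F g₁ k) (by omega)
    rw [show F g₁ k + (F g₁ 0 - F g₁ k) = F g₁ 0 by ring] at b2
    have e0 := abs_le.1 (c1 0)
    have ek := abs_le.1 (c1 k)
    omega

theorem zpowers_finiteIndex3' {Γ : SimpleGraph V} (hΓ : Γ.Connected) (Δ : ℕ)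
    (hΔ : ∀ v, (Γ.neighborSet v).Finite ∧ (Γ.neighborSet v).ncard ≤ Δ)
    (N : ℕ) (hN : ¬ HasTri Γ N)
    (hadj : ∀ (g : S) u v, Γ.Adj u v → Γ.Adj (g • u) (g • v))
    (hfree : ∀ (g : S) (v : V), g • v = v → g = 1)
    (R : Finset V) (hR : ∀ v : V, ∃ g : S, ∃ r ∈ R, g • r = v)
    (s : S) (htfz : ∀ n : ℤ, s ^ n = 1 → n = 0) :
    (Subgroup.zpowers s).FiniteIndex := by
  classical
  obtain ⟨v⟩ : Nonempty V := hΓ.nonempty
  haveI : Infinite V := by
    refine Infinite.of_injective (fun n : ℤ => s ^ n • v) ?_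
    intro n m h
    have h1 : (s ^ m)⁻¹ • s ^ n • v = v := by
      simp only at h
      rw [h, inv_smul_smul]
    rw [← mul_smul] at h1
    have h2 := hfree _ _ h1
    rw [← zpow_neg, ← zpow_add] at h2
    have := htfz _ h2
    omega
  have hds := dist_smul (S := S) hΓ hadj
  obtain ⟨D₀, hD₀⟩ : ∃ D₀ : ℕ, ∀ z : V, ∃ g : S, Γ.dist (g • v) z ≤ D₀ := by
    refine ⟨R.sup (fun r => Γ.dist v r), fun z => ?_⟩
    obtain ⟨g, r, hr, rfl⟩ := hR z
    refine ⟨g, ?_⟩
    rw [hds]
    exact Finset.le_sup (f := fun r => Γ.dist v r) hr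
  set M := (Δ + 1) ^ N with hM
  have hM1 : 1 ≤ M := Nat.one_le_pow _ _ (by omega)
  have hupper : ∀ ρ, (bl Γ v ρ).ncard ≤ (4 * (ρ + D₀) + 1) * M := by
    intro ρ
    obtain ⟨z, hz⟩ := small_ball3 hΓ Δ hΔ N hN (ρ + D₀)
    obtain ⟨g, hg⟩ := hD₀ z
    refine le_trans ?_ hz
    have h1 : (bl Γ v ρ).ncard = ((fun x => g • x) '' bl Γ v ρ).ncard :=
      (Set.ncard_image_of_injective _ (MulAction.injective g)).symm
    rw [h1]
    apply Set.ncard_le_ncard _ (bl_card hΓ Δ hΔ z (ρ + D₀)).1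
    rintro _ ⟨x, hx, rfl⟩
    simp only [bl, Set.mem_ofPred_eq] at hx ⊢
    have := hΓ.dist_triangle (u := z) (v := g • v) (w := g • x)
    rw [hds, SimpleGraph.dist_comm (u := z) (v := g • v)] at this
    omega
  set D := Γ.dist v (s • v) with hD
  have hsn : ∀ n : ℕ, Γ.dist v (s ^ n • v) ≤ n * D := by
    intro n
    induction n with
    | zero => simp
    | succ n ih =>
      have := hΓ.dist_triangle (u := v) (v := s ^ n • v) (w := s ^ (n + 1) • v)
      rw [pow_succ, mul_smul, hds] at this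
      rw [pow_succ, mul_smul, Nat.succ_mul]
      omega
  -- all vertices are close to the orbit
  obtain ⟨r₀, hr₀⟩ : ∃ r₀ : ℕ, ∀ w : V, ∃ n : ℤ, Γ.dist (s ^ n • v) w ≤ r₀ := by
    by_contra hcon
    push Not at hcon
    set r := (4 * (D + 1) + 4 * D₀ + 1) * M with hr
    obtain ⟨w, hw⟩ := hcon r
    -- the nearest orbit point
    obtain ⟨n₀, hn₀⟩ : ∃ n₀ : ℤ, ∀ n : ℤ, Γ.dist (s ^ n₀ • v) w ≤ Γ.dist (s ^ n • v) w := by
      have hne : {d : ℕ | ∃ n : ℤ, Γ.dist (s ^ n • v) w = d}.Nonempty := ⟨_, 0, rfl⟩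
      obtain ⟨n₀, h1⟩ := Nat.sInf_mem hne
      refine ⟨n₀, fun n => ?_⟩
      rw [h1]
      exact Nat.sInf_le ⟨n, rfl⟩
    set w' := (s ^ n₀)⁻¹ • w with hw'
    have hw'1 : ∀ n : ℤ, Γ.dist v w' ≤ Γ.dist (s ^ n • v) w' := by
      intro n
      have e1 : Γ.dist v w' = Γ.dist (s ^ n₀ • v) w := by
        rw [← hds (s ^ n₀) v w', hw', smul_inv_smul]
      have e2 : Γ.dist (s ^ n • v) w' = Γ.dist (s ^ (n₀ + n) • v) w := by
        rw [← hds (s ^ n₀) (s ^ n • v) w', hw', smul_inv_smul, ← mul_smul, ← zpow_add]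
      rw [e1, e2]
      exact hn₀ _
    have hw'2 : r < Γ.dist v w' := by
      have e1 : Γ.dist v w' = Γ.dist (s ^ n₀ • v) w := by
        rw [← hds (s ^ n₀) v w', hw', smul_inv_smul]
      rw [e1]
      exact hw n₀
    obtain ⟨p, hp0, hpk, hp⟩ := exists_geod hΓ v w'
    have hpd : ∀ k, k ≤ r → ∀ n : ℤ, k ≤ Γ.dist (s ^ n • v) (p k) := by
      intro k hk n
      have h1 := hw'1 n
      have h2 := hΓ.dist_triangle (u := s ^ n • v) (v := p k) (w := w')
      have h3 := hp k (Γ.dist v w') (by omega) le_rfl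
      rw [hpk] at h3
      omega
    have hpe : ∀ k, k ≤ r → Γ.dist v (p k) = k := by
      intro k hk
      rw [← hp0, hp 0 k (by omega) (by omega)]
      omega
    let F : Fin (r + 1) × Fin (r + 1) → V := fun x => s ^ (x.1 : ℕ) • p x.2
    have hFinj : Function.Injective F := by
      rintro ⟨n, k⟩ ⟨m, l⟩ h
      simp only [F] at h
      have hk := k.2
      have hl := l.2
      have hkl : ∀ (n m : ℕ) (k l : ℕ), k ≤ r → l ≤ r → s ^ n • p k = s ^ m • p l → l ≤ k := by
        intro n m k l hk hl h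
        have e1 : Γ.dist (s ^ n • v) (s ^ n • p k) = k := by rw [hds, hpe k hk]
        rw [h] at e1
        have e2 : Γ.dist (s ^ ((n : ℤ) - m) • v) (p l) = k := by
          rw [← e1, ← hds (s ^ m) (s ^ ((n : ℤ) - m) • v) (p l), ← mul_smul, ← zpow_natCast s m,
            ← zpow_add, ← zpow_natCast s n]
          congr 3
          ring
        rw [← e2]
        exact hpd l hl _
      have h1 : (k : ℕ) = l := le_antisymm (hkl m n l k (by omega) (by omega) h.symm)
        (hkl n m k l (by omega) (by omega) h)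
      have h2 : k = l := Fin.ext h1
      subst h2
      have h3 : (s ^ (m : ℕ))⁻¹ • s ^ (n : ℕ) • p k = p k := by rw [h, inv_smul_smul]
      rw [← mul_smul] at h3
      have h4 := hfree _ _ h3
      rw [← zpow_natCast, ← zpow_natCast, ← zpow_neg, ← zpow_add] at h4
      have h5 := htfz _ h4
      have h6 : n = m := Fin.ext (by omega)
      rw [h6]
    have hFr : Set.range F ⊆ bl Γ v (r * D + r) := by
      rintro _ ⟨⟨n, k⟩, rfl⟩
      simp only [F, bl, Set.mem_ofPred_eq]
      have h1 := hΓ.dist_triangle (u := v) (v := s ^ (n : ℕ) • v) (w := s ^ (n : ℕ) • p k)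
      rw [hds, hpe k (by have := k.2; omega)] at h1
      have h2 := hsn n
      have h3 : (n : ℕ) * D ≤ r * D := Nat.mul_le_mul_right _ (by have := n.2; omega)
      have h4 := k.2
      omega
    have hc1 : (r + 1) * (r + 1) ≤ (bl Γ v (r * D + r)).ncard := by
      have h1 : (Set.range F).ncard = (r + 1) * (r + 1) := by
        rw [← Set.image_univ, Set.ncard_image_of_injective _ hFinj, Set.ncard_univ]
        simp
      rw [← h1]
      exact Set.ncard_le_ncard hFr (bl_card hΓ Δ hΔ v _).1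
    have hc2 := hupper (r * D + r)
    have hr1 : 1 ≤ r := by
      rw [hr]
      exact Nat.one_le_iff_ne_zero.2 (by positivity)
    have hc3 : (4 * (r * D + r + D₀) + 1) * M ≤ r * r := by
      calc (4 * (r * D + r + D₀) + 1) * M ≤ (r * (4 * (D + 1) + 4 * D₀ + 1)) * M := by
            apply Nat.mul_le_mul_right
            nlinarith
        _ = r * r := by rw [mul_assoc, ← hr]
    nlinarith
  -- finite index
  have hF : {h : S | h • v ∈ bl Γ v r₀}.Finite := by
    apply Set.Finite.of_finite_image (f := fun h : S => h • v)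
    · exact (bl_card hΓ Δ hΔ v r₀).1.subset (by rintro _ ⟨h, hh, rfl⟩; exact hh)
    · intro a _ b _ hab
      have h1 : b⁻¹ • a • v = v := by
        simp only at hab
        rw [hab, inv_smul_smul]
      rw [← mul_smul] at h1
      have := hfree _ _ h1
      rw [inv_mul_eq_one] at this
      exact this.symm
  have hfq : Finite (S ⧸ Subgroup.zpowers s) := by
    haveI : Finite {h : S | h • v ∈ bl Γ v r₀} := hF
    refine Finite.of_surjective (α := {h : S | h • v ∈ bl Γ v r₀})
      (fun h => ((h.1⁻¹ : S) : S ⧸ Subgroup.zpowers s)) ?_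
    intro q
    induction q using QuotientGroup.induction_on with
    | H g =>
      obtain ⟨n, hn⟩ := hr₀ (g⁻¹ • v)
      refine ⟨⟨(s ^ n)⁻¹ * g⁻¹, ?_⟩, ?_⟩
      · simp only [bl, Set.mem_ofPred_eq]
        rw [← hds (s ^ n) v, mul_smul, smul_inv_smul]
        exact hn
      · simp only
        rw [QuotientGroup.eq]
        rw [Subgroup.mem_zpowers_iff]
        exact ⟨-n, by group⟩
  exact Subgroup.finiteIndex_of_finite_quotient

/-- The group is virtually cyclic. -/
theorem vc_of_noTri3 {Γ : SimpleGraph V} (hΓ : Γ.Connected) (Δ : ℕ)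
    (hΔ : ∀ v, (Γ.neighborSet v).Finite ∧ (Γ.neighborSet v).ncard ≤ Δ)
    (N : ℕ) (hN : ¬ HasTri Γ N)
    (hadj : ∀ (g : S) u v, Γ.Adj u v → Γ.Adj (g • u) (g • v))
    (hfree : ∀ (g : S) (v : V), g • v = v → g = 1)
    (R : Finset V) (hR : ∀ v : V, ∃ g : S, ∃ r ∈ R, g • r = v) :
    ∃ s : S, (Subgroup.zpowers s).FiniteIndex := by
  classical
  rcases finite_or_infinite V with hV | hV
  · obtain ⟨v⟩ : Nonempty V := hΓ.nonempty
    haveI : Finite S := Finite.of_injective (fun g : S => g • v) (by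
      intro a b hab
      have h1 : b⁻¹ • a • v = v := by
        simp only at hab
        rw [hab, inv_smul_smul]
      rw [← mul_smul] at h1
      have := hfree _ _ h1
      rw [inv_mul_eq_one] at this
      exact this.symm)
    exact ⟨1, inferInstance⟩
  · obtain ⟨s, hs⟩ := exists_infinite_order3 hΓ Δ hΔ N hN hadj R hR
    exact ⟨s, zpowers_finiteIndex3' hΓ Δ hΔ N hN hadj hfree R hR s hs⟩

end action


end Pool.Agent.U731.SP
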