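import Pool.Agent.U731.SP.Geo

set_option autoImplicit false
set_option linter.style.haveILetI false
set_option linter.unusedSectionVars false

/-! A connected graph with a cocompact group action and hermitian weights of absolute value at least
one, whose quadratic form has values in an interval of length at most `3 √2`, has no long tripods.
The weights on the diagonal are arbitrary. -/

namespace Pool.Agent.U731.SP

open SimpleGraph TH57.Thr

section flip

variable {V : Type*} [DecidableEq V]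

open Classical in
/-- the weights between `T` and its complement -/
noncomputable def cutW (W : V → V → ℝ) (T : Set V) (u v : V) : ℝ :=
  if (u ∈ T ↔ v ∈ T) then 0 else W u v

theorem cutW_symm {W : V → V → ℝ} (hsymm : ∀ u v, W u v = W v u) (T : Set V) (u v : V) :
    cutW W T u v = cutW W T v u := by
  unfold cutW
  rw [hsymm u v]
  by_cases h : (u ∈ T ↔ v ∈ T)
  · rw [if_pos h, if_pos h.symm]
  · rw [if_neg h, if_neg (fun h' => h h'.symm)]

theorem cutW_bound (W : V → V → ℝ) (T : Set V) (m s : ℝ)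
    (hlo : ∀ (S : Finset V) (f : V → ℝ),
      m * ∑ u ∈ S, f u ^ 2 ≤ ∑ u ∈ S, ∑ v ∈ S, W u v * f u * f v)
    (hhi : ∀ (S : Finset V) (f : V → ℝ),
      ∑ u ∈ S, ∑ v ∈ S, W u v * f u * f v ≤ (m + s) * ∑ u ∈ S, f u ^ 2)
    (S : Finset V) (f : V → ℝ) :
    ∑ u ∈ S, ∑ v ∈ S, cutW W T u v * f u * f v ≤ s / 2 * ∑ u ∈ S, f u ^ 2 := by
  classical
  let f' : V → ℝ := fun v => if v ∈ T then - f v else f v
  have h1 := hhi S f
  have h2 := hlo S f'
  have h3 : ∑ u ∈ S, f' u ^ 2 = ∑ u ∈ S, f u ^ 2 := by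
    refine Finset.sum_congr rfl fun u _ => ?_
    simp only [f']
    split_ifs <;> ring
  rw [h3] at h2
  have h4 : ∑ u ∈ S, ∑ v ∈ S, cutW W T u v * f u * f v
      = (∑ u ∈ S, ∑ v ∈ S, W u v * f u * f v - ∑ u ∈ S, ∑ v ∈ S, W u v * f' u * f' v) / 2 := by
    rw [← Finset.sum_sub_distrib, Finset.sum_div]
    refine Finset.sum_congr rfl fun u _ => ?_
    rw [← Finset.sum_sub_distrib, Finset.sum_div]
    refine Finset.sum_congr rfl fun v _ => ?_
    simp only [f', cutW]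
    by_cases hu : u ∈ T <;> by_cases hv : v ∈ T <;> simp only [hu, hv, if_true, if_false,
      iff_true, iff_false, not_true] <;> ring
  rw [h4]
  linarith

/-- The core argument: a tripod and one more vertex. -/
theorem core (Γ : SimpleGraph V) (W : V → V → ℝ) (hsymm : ∀ u v, W u v = W v u)
    (hWΓ : ∀ u v, u ≠ v → ¬ Γ.Adj u v → W u v = 0) (m s : ℝ) (hs0 : 0 < s) (hs : s ^ 2 ≤ 18)
    (hlo : ∀ (S : Finset V) (f : V → ℝ),
      m * ∑ u ∈ S, f u ^ 2 ≤ ∑ u ∈ S, ∑ v ∈ S, W u v * f u * f v)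
    (hhi : ∀ (S : Finset V) (f : V → ℝ),
      ∑ u ∈ S, ∑ v ∈ S, W u v * f u * f v ≤ (m + s) * ∑ u ∈ S, f u ^ 2)
    (N : ℕ) (a : Fin 3 → ℕ → V) (o : V) (h0 : ∀ i, a i 0 = o)
    (hinj : ∀ i j k l, k ≤ N → l ≤ N → a i k = a j l → (k = 0 ∧ l = 0) ∨ (i = j ∧ k = l))
    (hsame : ∀ i k l, k ≤ N → l ≤ N → k + 1 ≠ l → l + 1 ≠ k → ¬ Γ.Adj (a i k) (a i l))
    (hcross : ∀ i j k l, i ≠ j → 1 ≤ k → k ≤ N → 1 ≤ l → l ≤ N → (k ≠ 1 ∨ l ≠ 1) →
      ¬ Γ.Adj (a i k) (a j l))
    (hW1 : ∀ i k, k < N → 1 ≤ |W (a i k) (a i (k + 1))|)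
    (y : V) (hy : ∀ i k, k ≤ N → y ≠ a i k) (r : ℕ) (hr : r + 11 ≤ N)
    (hWy : 1 ≤ |W y (a 2 r)|)
    (hoth : ∀ i k, k ≤ N → Γ.Adj y (a i k) → i = 2 ∧ r ≤ k ∧ k ≤ r + 2) : False := by
  classical
  set T : Set V := {v | (∃ i k, k ≤ N ∧ v = a i k ∧ k % 2 = 1) ∨ (v = y ∧ r % 2 = 0)} with hT
  have hTa : ∀ i k, k ≤ N → (a i k ∈ T ↔ k % 2 = 1) := by
    intro i k hk
    constructor
    · rintro (⟨j, l, hl, h1, h2⟩ | ⟨h1, -⟩)
      · rcases hinj i j k l hk hl h1 with h | h <;> omega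
      · exact absurd h1.symm (hy i k hk)
    · intro h
      exact Or.inl ⟨i, k, hk, rfl, h⟩
  have hTy : y ∈ T ↔ r % 2 = 0 := by
    constructor
    · rintro (⟨j, l, hl, h1, h2⟩ | ⟨-, h1⟩)
      · exact absurd h1 (hy j l hl)
      · exact h1
    · intro h
      exact Or.inr ⟨rfl, h⟩
  have hW0 : ∀ i j k l, k ≤ N → l ≤ N → k % 2 = l % 2 → cutW W T (a i k) (a j l) = 0 := by
    intro i j k l hk hl h
    unfold cutW
    rw [if_pos]
    rw [hTa i k hk, hTa j l hl, h]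
  have hW2 : ∀ i j k l, k ≤ N → l ≤ N → k % 2 ≠ l % 2 →
      cutW W T (a i k) (a j l) = W (a i k) (a j l) := by
    intro i j k l hk hl h
    unfold cutW
    rw [if_neg]
    rw [hTa i k hk, hTa j l hl]
    omega
  set t : ℝ := Real.sqrt (1 / 2) with ht
  have ht2 : t ^ 2 = 1 / 2 := Real.sq_sqrt (by norm_num)
  have ht0 : 0 < t := Real.sqrt_pos.2 (by norm_num)
  have h3t : s / 2 ≤ 3 * t := by
    have : (s / 2) ^ 2 ≤ (3 * t) ^ 2 := by rw [mul_pow, ht2, div_pow]; linarith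
    exact le_of_sq_le_sq this (by positivity)
  refine N510.CT.tripod_gt (cutW W T) (cutW_symm hsymm T) (s / 2) (by positivity)
    (cutW_bound W T m s hlo hhi) N a o h0 hinj ?_ ?_ ?_ t ht0 ht2 h3t y hy ?_ r hr ?_ ?_
  · intro i k l hk hl h4 h5
    by_cases hp : k % 2 = l % 2
    · exact hW0 i i k l hk hl hp
    · rw [hW2 i i k l hk hl hp]
      apply hWΓ
      · intro h6
        rcases hinj i i k l hk hl h6 with h | h <;> omega
      · exact hsame i k l hk hl h4 h5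
  · intro i j k l hij hk0 hk hl0 hl
    by_cases hp : k % 2 = l % 2
    · exact hW0 i j k l hk hl hp
    · rw [hW2 i j k l hk hl hp]
      apply hWΓ
      · intro h6
        rcases hinj i j k l hk hl h6 with h | h
        · omega
        · exact hij h.1
      · exact hcross i j k l hij hk0 hk hl0 hl (by omega)
  · intro i k hk
    rw [hW2 i i k (k + 1) (by omega) (by omega) (by omega)]
    exact hW1 i k hk
  · unfold cutW
    rw [if_pos Iff.rfl]
  · have h6 : cutW W T y (a 2 r) = W y (a 2 r) := by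
      unfold cutW
      rw [if_neg]
      rw [hTy, hTa 2 r (by omega)]
      omega
    rw [h6]
    exact hWy
  · intro i k hk hne
    have h6 : ¬ (y ∈ T ↔ a i k ∈ T) := by
      intro h
      apply hne
      unfold cutW
      rw [if_pos h]
    have h7 : Γ.Adj y (a i k) := by
      by_contra h
      apply hne
      unfold cutW
      rw [if_neg h6]
      exact hWΓ _ _ (hy i k hk) h
    obtain ⟨h8, h9, h10⟩ := hoth i k hk h7
    refine ⟨h8, ?_⟩
    rw [hTy, hTa i k hk] at h6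
    omega

end flip

section gauge

variable {V : Type*} [DecidableEq V] {𝕜 : Type*} [RCLike 𝕜]

open RCLike ComplexConjugate

/-- phases along an arm -/
noncomputable def ph (w : ℕ → 𝕜) : ℕ → 𝕜
  | 0 => 1
  | k + 1 => ph w k * (conj (w k) / (‖w k‖ : 𝕜))

theorem norm_ph (w : ℕ → 𝕜) (N : ℕ) (hw : ∀ k, k < N → w k ≠ 0) (k : ℕ) (hk : k ≤ N) :
    ‖ph w k‖ = 1 := by
  induction k with
  | zero => simp [ph]
  | succ k ih =>
    rw [ph, norm_mul, ih (by omega), one_mul, norm_div, RCLike.norm_conj]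
    have h1 : ‖w k‖ ≠ 0 := norm_ne_zero_iff.2 (hw k (by omega))
    rw [RCLike.norm_ofReal, abs_of_nonneg (norm_nonneg _), div_self h1]

theorem ph_step (w : ℕ → 𝕜) (N : ℕ) (hw : ∀ k, k < N → w k ≠ 0) (k : ℕ) (hk : k < N) :
    conj (ph w k) * w k * ph w (k + 1) = (‖w k‖ : 𝕜) := by
  have h1 : ‖w k‖ ≠ 0 := norm_ne_zero_iff.2 (hw k hk)
  have h2 : (‖w k‖ : 𝕜) ≠ 0 := by exact_mod_cast h1
  have h3 : conj (ph w k) * ph w k = 1 := by
    rw [RCLike.conj_mul, norm_ph w N hw k hk.le]; simp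
  have h4 : w k * conj (w k) = (‖w k‖ : 𝕜) ^ 2 := RCLike.mul_conj _
  rw [ph]
  calc conj (ph w k) * w k * (ph w k * (conj (w k) / (‖w k‖ : 𝕜)))
      = (conj (ph w k) * ph w k) * ((w k * conj (w k)) / (‖w k‖ : 𝕜)) := by ring
    _ = _ := by rw [h3, h4, one_mul, sq, mul_div_assoc, div_self h2, mul_one]

/-- the real weights after a change of phases -/
noncomputable def gW (W : V → V → 𝕜) (p : V → 𝕜) (u v : V) : ℝ := re (conj (p u) * W u v * p v)

theorem gW_symm {W : V → V → 𝕜} (hsymm : ∀ u v, W v u = conj (W u v)) (p : V → 𝕜) (u v : V) :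
    gW W p u v = gW W p v u := by
  unfold gW
  rw [← RCLike.conj_re (conj (p u) * W u v * p v)]
  congr 1
  rw [map_mul, map_mul, RCLike.conj_conj, hsymm u v]
  ring

theorem gW_sum (W : V → V → 𝕜) (p : V → 𝕜) (S : Finset V) (f : V → ℝ) :
    ∑ u ∈ S, ∑ v ∈ S, gW W p u v * f u * f v
      = re (∑ u ∈ S, ∑ v ∈ S, conj (p u * (f u : 𝕜)) * W u v * (p v * (f v : 𝕜))) := by
  rw [map_sum]
  refine Finset.sum_congr rfl fun u _ => ?_
  rw [map_sum]
  refine Finset.sum_congr rfl fun v _ => ?_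
  unfold gW
  have h : conj (p u * (f u : 𝕜)) * W u v * (p v * (f v : 𝕜))
      = (((f u * f v : ℝ)) : 𝕜) * (conj (p u) * W u v * p v) := by
    rw [map_mul, RCLike.conj_ofReal, RCLike.ofReal_mul]
    ring
  rw [h, RCLike.re_ofReal_mul]
  ring

/-- The core argument for hermitian weights. -/
theorem core_herm (Γ : SimpleGraph V) (W : V → V → 𝕜) (hsymm : ∀ u v, W v u = conj (W u v))
    (hWΓ : ∀ u v, u ≠ v → ¬ Γ.Adj u v → W u v = 0)
    (hW1 : ∀ u v, Γ.Adj u v → 1 ≤ ‖W u v‖) (m s : ℝ) (hs0 : 0 < s) (hs : s ^ 2 ≤ 18)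
    (hq : ∀ (S : Finset V) (f : V → 𝕜),
      m * ∑ u ∈ S, ‖f u‖ ^ 2 ≤ re (∑ u ∈ S, ∑ v ∈ S, conj (f u) * W u v * f v) ∧
      re (∑ u ∈ S, ∑ v ∈ S, conj (f u) * W u v * f v) ≤ (m + s) * ∑ u ∈ S, ‖f u‖ ^ 2)
    (N : ℕ) (a : Fin 3 → ℕ → V) (o : V) (h0 : ∀ i, a i 0 = o)
    (hinj : ∀ i j k l, k ≤ N → l ≤ N → a i k = a j l → (k = 0 ∧ l = 0) ∨ (i = j ∧ k = l))
    (hedge : ∀ i k, k < N → Γ.Adj (a i k) (a i (k + 1)))
    (hsame : ∀ i k l, k ≤ N → l ≤ N → k + 1 ≠ l → l + 1 ≠ k → ¬ Γ.Adj (a i k) (a i l))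
    (hcross : ∀ i j k l, i ≠ j → 1 ≤ k → k ≤ N → 1 ≤ l → l ≤ N → (k ≠ 1 ∨ l ≠ 1) →
      ¬ Γ.Adj (a i k) (a j l))
    (y : V) (hy : ∀ i k, k ≤ N → y ≠ a i k) (r : ℕ) (hr : r + 11 ≤ N)
    (hWy : Γ.Adj y (a 2 r))
    (hoth : ∀ i k, k ≤ N → Γ.Adj y (a i k) → i = 2 ∧ r ≤ k ∧ k ≤ r + 2) : False := by
  classical
  have hne : ∀ u v, Γ.Adj u v → W u v ≠ 0 := by
    intro u v h h1
    have := hW1 u v h
    rw [h1, norm_zero] at this
    linarith
  set w : Fin 3 → ℕ → 𝕜 := fun i k => W (a i k) (a i (k + 1)) with hw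
  have hw0 : ∀ i k, k < N → w i k ≠ 0 := fun i k hk => hne _ _ (hedge i k hk)
  set c : 𝕜 := W y (a 2 r) * ph (w 2) r with hc
  have hc1 : ‖c‖ = ‖W y (a 2 r)‖ := by
    rw [hc, norm_mul, norm_ph (w 2) N (hw0 2) r (by omega), mul_one]
  have hc2 : ‖c‖ ≠ 0 := by
    rw [hc1]
    exact norm_ne_zero_iff.2 (hne _ _ hWy)
  let p : V → 𝕜 := fun v =>
    if h : ∃ i k, k ≤ N ∧ v = a i k then ph (w h.choose) h.choose_spec.choose
    else if v = y then c / (‖c‖ : 𝕜) else 1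
  have hpa : ∀ i k, k ≤ N → p (a i k) = ph (w i) k := by
    intro i k hk
    have h : ∃ j l, l ≤ N ∧ a i k = a j l := ⟨i, k, hk, rfl⟩
    have h1 : p (a i k) = ph (w h.choose) h.choose_spec.choose := dif_pos h
    rw [h1]
    have h4 : ∀ (j : Fin 3) (l : ℕ), (k = 0 ∧ l = 0) ∨ (i = j ∧ k = l) →
        ph (w j) l = ph (w i) k := by
      rintro j l (⟨h2, h3⟩ | ⟨h2, h3⟩)
      · rw [h3, h2]
        rfl
      · rw [← h3, ← h2]
    exact h4 _ _ (hinj i h.choose k h.choose_spec.choose hk h.choose_spec.choose_spec.1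
      h.choose_spec.choose_spec.2)
  have hpy : p y = c / (‖c‖ : 𝕜) := by
    have h : ¬ ∃ j l, l ≤ N ∧ y = a j l := by
      rintro ⟨j, l, hl, h⟩
      exact hy j l hl h
    have h1 : p y = if y = y then c / (‖c‖ : 𝕜) else 1 := dif_neg h
    rw [h1, if_pos rfl]
  have hpn : ∀ v, ‖p v‖ = 1 := by
    intro v
    by_cases h : ∃ i k, k ≤ N ∧ v = a i k
    · obtain ⟨i, k, hk, rfl⟩ := h
      rw [hpa i k hk, norm_ph (w i) N (hw0 i) k hk]
    · by_cases h2 : v = y
      · subst h2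
        rw [hpy, norm_div, RCLike.norm_ofReal, abs_of_nonneg (norm_nonneg _), div_self hc2]
      · have h1 : p v = 1 := by
          have h3 : p v = if v = y then c / (‖c‖ : 𝕜) else 1 := dif_neg h
          rw [h3, if_neg h2]
        rw [h1, norm_one]
  have hnf : ∀ (S : Finset V) (f : V → ℝ), ∑ u ∈ S, ‖p u * (f u : 𝕜)‖ ^ 2 = ∑ u ∈ S, f u ^ 2 := by
    intro S f
    refine Finset.sum_congr rfl fun u _ => ?_
    rw [norm_mul, hpn, one_mul, RCLike.norm_ofReal, sq_abs]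
  refine core Γ (gW W p) (gW_symm hsymm p) ?_ m s hs0 hs ?_ ?_ N a o h0 hinj hsame hcross ?_ y hy r
    hr ?_ hoth
  · intro u v huv h
    unfold gW
    rw [hWΓ u v huv h]
    simp
  · intro S f
    rw [gW_sum, ← hnf]
    exact (hq S _).1
  · intro S f
    rw [gW_sum, ← hnf]
    exact (hq S _).2
  · intro i k hk
    have h1 : gW W p (a i k) (a i (k + 1)) = ‖w i k‖ := by
      unfold gW
      rw [hpa i k hk.le, hpa i (k + 1) hk, ph_step (w i) N (hw0 i) k hk, RCLike.ofReal_re]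
    rw [h1, abs_of_nonneg (norm_nonneg _)]
    exact hW1 _ _ (hedge i k hk)
  · have h1 : gW W p y (a 2 r) = ‖c‖ := by
      unfold gW
      rw [hpa 2 r (by omega), hpy, mul_assoc, ← hc, map_div₀, RCLike.conj_ofReal, div_mul_eq_mul_div,
        RCLike.conj_mul, sq, mul_div_assoc, div_self (by exact_mod_cast hc2), mul_one,
        RCLike.ofReal_re]
    rw [h1, abs_of_nonneg (norm_nonneg _), hc1]
    exact hW1 _ _ hWy

theorem sum_path (c : ℕ → ℕ → ℝ) (h : ∀ i j, i + 1 ≠ j → j + 1 ≠ i → c i j = 0) (k : ℕ) :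
    ∑ i ∈ Finset.range (k + 1), ∑ j ∈ Finset.range (k + 1), c i j
      = ∑ i ∈ Finset.range k, (c i (i + 1) + c (i + 1) i) := by
  induction k with
  | zero => simp [h 0 0]
  | succ k ih =>
    rw [Finset.sum_range_succ, Finset.sum_range_succ (fun i => c i (i + 1) + c (i + 1) i), ← ih]
    have h1 : ∑ i ∈ Finset.range (k + 1), ∑ j ∈ Finset.range (k + 1 + 1), c i j
        = ∑ i ∈ Finset.range (k + 1), ∑ j ∈ Finset.range (k + 1), c i j
          + ∑ i ∈ Finset.range (k + 1), c i (k + 1) := by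
      rw [← Finset.sum_add_distrib]
      exact Finset.sum_congr rfl fun i _ => Finset.sum_range_succ _ _
    have h2 : ∑ i ∈ Finset.range (k + 1), c i (k + 1) = c k (k + 1) := by
      rw [Finset.sum_range_succ, Finset.sum_eq_zero, zero_add]
      intro i hi
      have := Finset.mem_range.1 hi
      exact h _ _ (by omega) (by omega)
    have h3 : ∑ j ∈ Finset.range (k + 1 + 1), c (k + 1) j = c (k + 1) k := by
      rw [Finset.sum_range_succ, Finset.sum_range_succ, h (k + 1) (k + 1) (by omega) (by omega),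
        add_zero, Finset.sum_eq_zero, zero_add]
      intro i hi
      have := Finset.mem_range.1 hi
      exact h _ _ (by omega) (by omega)
    rw [h1, h2, h3]
    ring

/-- Paths. -/
theorem path_herm (Γ : SimpleGraph V) (W : V → V → 𝕜) (hsymm : ∀ u v, W v u = conj (W u v))
    (hWΓ : ∀ u v, u ≠ v → ¬ Γ.Adj u v → W u v = 0)
    (hW1 : ∀ u v, Γ.Adj u v → 1 ≤ ‖W u v‖) (m s : ℝ)
    (hq : ∀ (S : Finset V) (f : V → 𝕜),
      m * ∑ u ∈ S, ‖f u‖ ^ 2 ≤ re (∑ u ∈ S, ∑ v ∈ S, conj (f u) * W u v * f v) ∧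
      re (∑ u ∈ S, ∑ v ∈ S, conj (f u) * W u v * f v) ≤ (m + s) * ∑ u ∈ S, ‖f u‖ ^ 2)
    (K : ℕ) (γ : ℕ → V)
    (hinj : ∀ i j, i ≤ K → j ≤ K → γ i = γ j → i = j)
    (hedge : ∀ i, i + 1 ≤ K → Γ.Adj (γ i) (γ (i + 1)))
    (hnon : ∀ i j, i + 1 < j → j ≤ K → ¬ Γ.Adj (γ i) (γ j)) :
    4 * (K : ℝ) ≤ s * (K + 1) := by
  classical
  set w : ℕ → 𝕜 := fun i => W (γ i) (γ (i + 1)) with hw
  have hne : ∀ u v, Γ.Adj u v → W u v ≠ 0 := by
    intro u v h h1
    have := hW1 u v h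
    rw [h1, norm_zero] at this
    linarith
  have hw0 : ∀ k, k < K → w k ≠ 0 := fun k hk => hne _ _ (hedge k hk)
  let p : V → 𝕜 := fun v => if h : ∃ i, i ≤ K ∧ v = γ i then ph w h.choose else 1
  have hpa : ∀ i, i ≤ K → p (γ i) = ph w i := by
    intro i hi
    have h : ∃ j, j ≤ K ∧ γ i = γ j := ⟨i, hi, rfl⟩
    have h1 : p (γ i) = ph w h.choose := dif_pos h
    rw [h1, ← hinj i h.choose hi h.choose_spec.1 h.choose_spec.2]
  have hpn : ∀ v, ‖p v‖ = 1 := by
    intro v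
    by_cases h : ∃ i, i ≤ K ∧ v = γ i
    · obtain ⟨i, hi, rfl⟩ := h
      rw [hpa i hi, norm_ph w K hw0 i hi]
    · have h3 : p v = 1 := dif_neg h
      rw [h3, norm_one]
  have hnf : ∀ (S : Finset V) (f : V → ℝ), ∑ u ∈ S, ‖p u * (f u : 𝕜)‖ ^ 2 = ∑ u ∈ S, f u ^ 2 := by
    intro S f
    refine Finset.sum_congr rfl fun u _ => ?_
    rw [norm_mul, hpn, one_mul, RCLike.norm_ofReal, sq_abs]
  set T : Set V := {v | ∃ i, i ≤ K ∧ v = γ i ∧ i % 2 = 1} with hT
  have hTa : ∀ i, i ≤ K → (γ i ∈ T ↔ i % 2 = 1) := by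
    intro i hi
    constructor
    · rintro ⟨j, hj, h1, h2⟩
      rw [hinj i j hi hj h1]
      exact h2
    · intro h
      exact ⟨i, hi, rfl, h⟩
  have hb := cutW_bound (gW W p) T m s
    (fun S f => by rw [gW_sum, ← hnf]; exact (hq S _).1)
    (fun S f => by rw [gW_sum, ← hnf]; exact (hq S _).2)
    ((Finset.range (K + 1)).image γ) (fun _ => 1)
  have hinj' : Set.InjOn γ (Finset.range (K + 1)) := by
    intro i hi j hj h
    have := Finset.mem_range.1 hi
    have := Finset.mem_range.1 hj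
    exact hinj i j (by omega) (by omega) h
  rw [Finset.sum_image hinj', Finset.sum_image hinj'] at hb
  simp only [Finset.sum_image hinj', mul_one, one_pow, Finset.sum_const, Finset.card_range,
    nsmul_eq_mul] at hb
  have hc : ∀ i j, i ≤ K → j ≤ K → i + 1 ≠ j → j + 1 ≠ i → cutW (gW W p) T (γ i) (γ j) = 0 := by
    intro i j hi hj h1 h2
    unfold cutW
    by_cases hp : i % 2 = j % 2
    · rw [if_pos]
      rw [hTa i hi, hTa j hj, hp]
    · rw [if_neg (by rw [hTa i hi, hTa j hj]; omega)]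
      unfold gW
      rw [hWΓ]
      · simp
      · intro h3
        have := hinj i j hi hj h3
        omega
      · rcases Nat.lt_or_gt_of_ne (show i ≠ j by rintro rfl; exact hp rfl) with h3 | h3
        · exact hnon i j (by omega) hj
        · exact fun h4 => hnon j i (by omega) hi h4.symm
  have hsum := sum_path (fun i j => if i ≤ K ∧ j ≤ K then cutW (gW W p) T (γ i) (γ j) else 0)
    (fun i j h1 h2 => by
      split_ifs with h
      · exact hc i j h.1 h.2 h1 h2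
      · rfl) K
  have hsum2 : ∑ i ∈ Finset.range (K + 1), ∑ j ∈ Finset.range (K + 1),
      (if i ≤ K ∧ j ≤ K then cutW (gW W p) T (γ i) (γ j) else 0)
      = ∑ i ∈ Finset.range (K + 1), ∑ j ∈ Finset.range (K + 1), cutW (gW W p) T (γ i) (γ j) := by
    refine Finset.sum_congr rfl fun i hi => Finset.sum_congr rfl fun j hj => ?_
    have := Finset.mem_range.1 hi
    have := Finset.mem_range.1 hj
    rw [if_pos ⟨by omega, by omega⟩]
  rw [hsum2] at hsum
  have hlow : ∀ i ∈ Finset.range K,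
      (2 : ℝ) ≤ (if i ≤ K ∧ i + 1 ≤ K then cutW (gW W p) T (γ i) (γ (i + 1)) else 0)
        + (if i + 1 ≤ K ∧ i ≤ K then cutW (gW W p) T (γ (i + 1)) (γ i) else 0) := by
    intro i hi
    have hi' := Finset.mem_range.1 hi
    rw [if_pos ⟨by omega, by omega⟩, if_pos ⟨by omega, by omega⟩,
      cutW_symm (gW_symm hsymm p) T (γ (i + 1)) (γ i)]
    have h1 : cutW (gW W p) T (γ i) (γ (i + 1)) = gW W p (γ i) (γ (i + 1)) := by
      unfold cutW
      rw [if_neg (by rw [hTa i (by omega), hTa (i + 1) (by omega)]; omega)]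
    have h2 : gW W p (γ i) (γ (i + 1)) = ‖w i‖ := by
      unfold gW
      rw [hpa i (by omega), hpa (i + 1) (by omega), ph_step w K hw0 i hi', RCLike.ofReal_re]
    rw [h1, h2]
    have h3 : 1 ≤ ‖w i‖ := hW1 _ _ (hedge i hi')
    linarith
  have hfin := Finset.sum_le_sum hlow
  rw [Finset.sum_const, Finset.card_range, nsmul_eq_mul] at hfin
  rw [← hsum] at hfin
  push_cast at hb
  linarith

end gauge

section action

variable {V : Type*} {S : Type*} [Group S] [MulAction S V]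

/-- There is a vertex outside the tripod adjacent to the third arm. -/
theorem exists_pendant3 {Γ : SimpleGraph V} (hΓ : Γ.Connected)
    (hadj : ∀ (g : S) u v, Γ.Adj u v → Γ.Adj (g • u) (g • v))
    (R : Finset V) (hR : ∀ v : V, ∃ g : S, ∃ r ∈ R, g • r = v) :
    ∃ D : ℕ, ∀ N, 2 * D + 4 ≤ N → ∀ (a : Fin 3 → ℕ → V) (o : V), (∀ i, a i 0 = o) →
    (∀ i j k l, k ≤ N → l ≤ N → a i k = a j l → (k = 0 ∧ l = 0) ∨ (i = j ∧ k = l)) →
    (∀ i k, k < N → Γ.Adj (a i k) (a i (k + 1))) →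
    (∀ j k l, j ≠ 2 → k ≤ N → l ≤ N → k ≤ Γ.dist (a 2 k) (a j l)) →
    (∀ k l, k ≤ N → l ≤ N → Γ.dist (a 2 k) (a 2 l) = (k - l) + (l - k)) →
    ∃ (y : V) (k : ℕ), (∀ i l, l ≤ N → y ≠ a i l) ∧ 4 ≤ k ∧ k ≤ 2 * D + 4 ∧
      Γ.Adj y (a 2 k) := by
  classical
  have hds := dist_smul (S := S) hΓ hadj
  refine ⟨(R ×ˢ R).sup (fun p => Γ.dist p.1 p.2), ?_⟩
  set D := (R ×ˢ R).sup (fun p => Γ.dist p.1 p.2) with hD
  have hD1 : ∀ r ∈ R, ∀ r' ∈ R, Γ.dist r r' ≤ D := fun r hr r' hr' =>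
    Finset.le_sup (f := fun p : V × V => Γ.dist p.1 p.2) (Finset.mk_mem_product hr hr')
  intro N hN a o h0 hinj hedge h3 h1
  set z := a 2 (D + 4) with hz
  obtain ⟨g, hg⟩ : ∃ g : S, Γ.dist z (g • o) ≤ D := by
    obtain ⟨g₁, r₁, hr₁, e₁⟩ := hR o
    obtain ⟨g₂, r₂, hr₂, e₂⟩ := hR z
    refine ⟨g₂ * g₁⁻¹, ?_⟩
    rw [mul_smul, ← e₁, inv_smul_smul, ← e₂, hds]
    exact hD1 _ hr₂ _ hr₁
  set w := g • o with hw
  obtain ⟨q, hq0, hqd, hq⟩ := exists_geod hΓ z w
  set d := Γ.dist z w with hd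
  by_cases hcase : ∃ j, j ≤ d ∧ ∀ i l, l ≤ N → q j ≠ a i l
  · -- the first vertex outside
    have hj1 := Nat.find_spec hcase
    have hj2 := @Nat.find_min _ _ hcase
    set j := Nat.find hcase with hj
    have hj0 : 0 < j := by
      rcases Nat.eq_zero_or_pos j with h | h
      · exfalso
        rw [h] at hj1
        exact hj1.2 2 (D + 4) (by omega) hq0
      · exact h
    have h4 := hj2 (m := j - 1) (by omega)
    push Not at h4
    obtain ⟨i, k, hk, h5⟩ := h4 (by omega)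
    have h6 : Γ.dist z (q (j - 1)) = j - 1 := by
      have := hq 0 (j - 1) (by omega) (by omega)
      rw [hq0] at this
      rw [this]
      omega
    have hi : i = 2 := by
      by_contra hi
      have := h3 i (D + 4) k hi (by omega) hk
      rw [← h5, ← hz, h6] at this
      omega
    subst hi
    have h7 := h1 (D + 4) k (by omega) hk
    rw [← h5, ← hz, h6] at h7
    refine ⟨q j, k, hj1.2, by omega, by omega, ?_⟩
    rw [← h5, ← SimpleGraph.dist_eq_one_iff_adj, hq j (j - 1) hj1.1 (by omega)]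
    omega
  · push Not at hcase
    obtain ⟨i, k, hk, h5⟩ := hcase d le_rfl
    rw [hqd] at h5
    have hi : i = 2 := by
      by_contra hi
      have := h3 i (D + 4) k hi (by omega) hk
      rw [← h5, ← hz] at this
      omega
    subst hi
    have h7 := h1 (D + 4) k (by omega) hk
    rw [← h5, ← hz] at h7
    -- three neighbours
    have hnb : ∀ i, Γ.Adj (g • a i 1) (a 2 k) := by
      intro i
      rw [← h5, hw, ← h0 i]
      apply hadj
      exact (hedge i 0 (by omega)).symm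
    have hne : ∀ i j, i ≠ j → g • a i 1 ≠ g • a j 1 := by
      intro i j hij h
      have h8 := MulAction.injective g h
      rcases hinj i j 1 1 (by omega) (by omega) h8 with h9 | h9
      · omega
      · exact hij h9.1
    by_cases hout : ∃ i, ∀ j l, l ≤ N → g • a i 1 ≠ a j l
    · obtain ⟨i, hi⟩ := hout
      exact ⟨_, k, hi, by omega, by omega, hnb i⟩
    · exfalso
      push Not at hout
      have hin : ∀ i, g • a i 1 = a 2 (k - 1) ∨ g • a i 1 = a 2 (k + 1) := by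
        intro i
        obtain ⟨j, l, hl, h8⟩ := hout i
        have h9 := SimpleGraph.dist_eq_one_iff_adj.2 (hnb i)
        rw [h8, SimpleGraph.dist_comm] at h9
        have hj : j = 2 := by
          by_contra hj
          have := h3 j k l hj hk hl
          omega
        subst hj
        rw [h1 k l hk hl] at h9
        rw [h8]
        have : l = k - 1 ∨ l = k + 1 := by omega
        rcases this with h | h
        · left; rw [h]
        · right; rw [h]
      have c01 := hne 0 1 (by decide)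
      have c02 := hne 0 2 (by decide)
      have c12 := hne 1 2 (by decide)
      rcases hin 0 with e0 | e0 <;> rcases hin 1 with e1 | e1 <;> rcases hin 2 with e2 | e2 <;>
        first
        | exact c01 (e0.trans e1.symm)
        | exact c02 (e0.trans e2.symm)
        | exact c12 (e1.trans e2.symm)

open RCLike ComplexConjugate in
/-- There are no long tripods. -/
theorem noTri {𝕜 : Type*} [RCLike 𝕜] {Γ : SimpleGraph V} (hΓ : Γ.Connected)
    (W : V → V → 𝕜) (hsymm : ∀ u v, W v u = conj (W u v))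
    (hWΓ : ∀ u v, u ≠ v → ¬ Γ.Adj u v → W u v = 0)
    (hW1 : ∀ u v, Γ.Adj u v → 1 ≤ ‖W u v‖) (m s : ℝ) (hs0 : 0 < s) (hs : s ^ 2 ≤ 18)
    (hq : ∀ (S : Finset V) (f : V → 𝕜),
      m * ∑ u ∈ S, ‖f u‖ ^ 2 ≤ re (∑ u ∈ S, ∑ v ∈ S, conj (f u) * W u v * f v) ∧
      re (∑ u ∈ S, ∑ v ∈ S, conj (f u) * W u v * f v) ≤ (m + s) * ∑ u ∈ S, ‖f u‖ ^ 2)
    (hadj : ∀ (g : S) u v, Γ.Adj u v → Γ.Adj (g • u) (g • v))
    (R : Finset V) (hR : ∀ v : V, ∃ g : S, ∃ r ∈ R, g • r = v) :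
    ∃ N, ¬ HasTri Γ N := by
  classical
  obtain ⟨D, hD⟩ := exists_pendant3 (S := S) hΓ hadj R hR
  refine ⟨2 * D + 20, ?_⟩
  rintro ⟨a, o, h0, hinj, hedge, hsame, hcross, h3, h1⟩
  obtain ⟨y, k, hy, hk4, hkD, hyk⟩ := hD (2 * D + 20) (by omega) a o h0 hinj hedge h3 h1
  set N := 2 * D + 20 with hN
  -- the first neighbour
  have hex : ∃ m, m ≤ N ∧ Γ.Adj y (a 2 m) := ⟨k, by omega, hyk⟩
  have hm1 := Nat.find_spec hex
  have hm2 := @Nat.find_min _ _ hex
  have hm3 : Nat.find hex ≤ k := Nat.find_min' hex ⟨by omega, hyk⟩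
  set r := Nat.find hex with hr
  refine core_herm Γ W hsymm hWΓ hW1 m s hs0 hs hq N a o h0 hinj hedge hsame hcross y hy r
    (by omega) hm1.2 ?_
  intro i l hl hyl
  have d1 := SimpleGraph.dist_eq_one_iff_adj.2 hyl
  have d2 := SimpleGraph.dist_eq_one_iff_adj.2 hyk
  have d3 := SimpleGraph.dist_eq_one_iff_adj.2 hm1.2
  have hi : i = 2 := by
    by_contra hi
    have e1 := h3 i k l hi (by omega) hl
    have e2 := hΓ.dist_triangle (u := a 2 k) (v := y) (w := a i l)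
    rw [SimpleGraph.dist_comm (u := a 2 k) (v := y), d1, d2] at e2
    omega
  subst hi
  refine ⟨rfl, ?_, ?_⟩
  · by_contra h
    exact hm2 (m := l) (by omega) ⟨hl, hyl⟩
  · have e4 := hΓ.dist_triangle (u := a 2 r) (v := y) (w := a 2 l)
    rw [SimpleGraph.dist_comm (u := a 2 r) (v := y), d1, d3, h1 r l (by omega) hl] at e4
    omega

end action

end Pool.Agent.U731.SP
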