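import Pool.Agent.U731.SP.NoTri
import Pool.Agent.TH6.LF.Sym

set_option autoImplicit false
set_option linter.style.haveILetI false
set_option linter.unusedSectionVars false

/-! Hermitian matrices over group rings whose spectrum lies in an interval of length at most
`3 √2` come from virtually cyclic subgroups. -/

namespace Pool.Agent.U731.SP

open Matrix SimpleGraph RCLike ComplexConjugate TH57.Thr

variable {G : Type*} [Group G] {ι : Type*} {𝕜 : Type*} [RCLike 𝕜]

/-- The squared `ℓ²`-norm of a finitely supported row vector. -/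
noncomputable def nsq [Fintype ι] (x : ι → MonoidAlgebra 𝕜 G) : ℝ :=
  ∑ i, ∑ g ∈ (x i).coeff.support, ‖(x i).coeff g‖ ^ 2

/-- The inner product `⟨x A, x⟩` of finitely supported row vectors. -/
noncomputable def quad [Fintype ι] (A : Matrix ι ι (MonoidAlgebra 𝕜 G))
    (x : ι → MonoidAlgebra 𝕜 G) : 𝕜 :=
  ∑ j, ∑ g ∈ (x j).coeff.support, ((x ᵥ* A) j).coeff g * conj ((x j).coeff g)

/-- The values of the quadratic form on unit vectors lie in an interval of length `s`: the spectrum
of the operator lies in this interval. -/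
def SpanLE [Fintype ι] (A : Matrix ι ι (MonoidAlgebra 𝕜 G)) (s : ℝ) : Prop :=
  ∃ m : ℝ, ∀ x : ι → MonoidAlgebra 𝕜 G, m * nsq x ≤ re (quad A x) ∧
    re (quad A x) ≤ (m + s) * nsq x

/-- `A` is hermitian. -/
def Herm (A : Matrix ι ι (MonoidAlgebra 𝕜 G)) : Prop :=
  ∀ i j g, (A j i).coeff g⁻¹ = conj ((A i j).coeff g)

/-- All nonzero coefficients except the coefficients of the identity on the diagonal have absolute
value at least one. -/
def BigOff (A : Matrix ι ι (MonoidAlgebra 𝕜 G)) : Prop :=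
  ∀ i j g, (A i j).coeff g ≠ 0 → (i = j ∧ g = 1) ∨ 1 ≤ ‖(A i j).coeff g‖

/-- weights -/
noncomputable def hw (A : Matrix ι ι (MonoidAlgebra 𝕜 G)) (u v : G × ι) : 𝕜 :=
  (A u.2 v.2).coeff (u.1⁻¹ * v.1)

theorem hw_symm {A : Matrix ι ι (MonoidAlgebra 𝕜 G)} (hA : Herm A) (u v : G × ι) :
    hw A v u = conj (hw A u v) := by
  unfold hw
  rw [← hA u.2 v.2 (u.1⁻¹ * v.1), _root_.mul_inv_rev, inv_inv]

theorem hw_big {A : Matrix ι ι (MonoidAlgebra 𝕜 G)} (hA : BigOff A) (u v : G × ι) (huv : u ≠ v)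
    (h : hw A u v ≠ 0) : 1 ≤ ‖hw A u v‖ := by
  rcases hA u.2 v.2 (u.1⁻¹ * v.1) h with ⟨h1, h2⟩ | h1
  · exfalso
    apply huv
    rw [inv_mul_eq_one] at h2
    exact Prod.ext h2 h1
  · exact h1

/-- the graph of the matrix -/
def hg (A : Matrix ι ι (MonoidAlgebra 𝕜 G)) (hA : Herm A) : SimpleGraph (G × ι) where
  Adj u v := u ≠ v ∧ hw A u v ≠ 0
  symm := ⟨fun u v h => ⟨h.1.symm, by
    rw [hw_symm hA, Ne, map_eq_zero]
    exact h.2⟩⟩
  loopless := ⟨fun u h => h.1 rfl⟩

theorem sum_sq_of_sub (x : MonoidAlgebra 𝕜 G) (T : Finset G) (h : x.coeff.support ⊆ T) :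
    ∑ g ∈ x.coeff.support, ‖x.coeff g‖ ^ 2 = ∑ g ∈ T, ‖x.coeff g‖ ^ 2 :=
  Finset.sum_subset h fun g _ hg => by rw [Finsupp.notMem_support_iff.1 hg, norm_zero]; ring

/-- the row vector with given values on a finite set -/
noncomputable def rv [DecidableEq ι] (S : Finset (G × ι)) (f : G × ι → 𝕜) :
    ι → MonoidAlgebra 𝕜 G := fun i =>
  ∑ p ∈ S, if p.2 = i then MonoidAlgebra.single p.1 (f p) else 0

theorem rv_coeff [DecidableEq ι] [DecidableEq G] (S : Finset (G × ι)) (f : G × ι → 𝕜) (i : ι)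
    (g : G) : (rv S f i).coeff g = if (g, i) ∈ S then f (g, i) else 0 := by
  unfold rv
  rw [MonoidAlgebra.coeff_sum, Finsupp.finsetSum_apply]
  split_ifs with h
  · rw [Finset.sum_eq_single (g, i)]
    · simp
    · rintro ⟨g', i'⟩ _ hne
      by_cases h1 : i' = i
      · subst h1
        have : g' ≠ g := fun h2 => hne (by rw [h2])
        simp [this]
      · simp [h1]
    · intro h1; exact absurd h h1
  · apply Finset.sum_eq_zero
    rintro ⟨g', i'⟩ hmem
    by_cases h1 : i' = i
    · subst h1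
      have : g' ≠ g := fun h2 => h (by rw [← h2]; exact hmem)
      simp [this]
    · simp [h1]

theorem sum_rv [Fintype ι] [DecidableEq ι] (S : Finset (G × ι)) (f : G × ι → 𝕜)
    {M : Type*} [AddCommMonoid M] (F : G → ι → 𝕜 → M) (hF : ∀ g i, F g i 0 = 0) :
    ∑ i, ∑ g ∈ (rv S f i).coeff.support, F g i ((rv S f i).coeff g)
      = ∑ p ∈ S, F p.1 p.2 (f p) := by
  classical
  have h1 : ∀ i, ∑ g ∈ (rv S f i).coeff.support, F g i ((rv S f i).coeff g)
      = ∑ g ∈ S.image Prod.fst, F g i ((rv S f i).coeff g) := by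
    intro i
    refine Finset.sum_subset ?_ ?_
    · intro g hg
      rw [Finsupp.mem_support_iff, rv_coeff] at hg
      rw [Finset.mem_image]
      by_contra hcon
      apply hg
      rw [if_neg]
      intro h2
      exact hcon ⟨_, h2, rfl⟩
    · intro g _ hg
      rw [Finsupp.notMem_support_iff.1 hg, hF]
  rw [Finset.sum_congr rfl fun i _ => h1 i]
  simp only [rv_coeff]
  rw [Finset.sum_comm, ← Finset.sum_product']
  have h2 : ∀ y : G × ι, F y.1 y.2 (if (y.1, y.2) ∈ S then f (y.1, y.2) else 0)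
      = if y ∈ S then F y.1 y.2 (f y) else 0 := by
    rintro ⟨g, i⟩
    simp only
    split_ifs
    · rfl
    · exact hF _ _
  simp only [h2]
  rw [← Finset.sum_filter]
  apply Finset.sum_congr _ fun _ _ => rfl
  ext ⟨g, i⟩
  simp only [Finset.mem_filter, Finset.mem_product, Finset.mem_image, Finset.mem_univ, and_true]
  constructor
  · exact fun h => h.2
  · exact fun h => ⟨⟨_, h, rfl⟩, h⟩

theorem nsq_rv [Fintype ι] [DecidableEq ι] (S : Finset (G × ι)) (f : G × ι → 𝕜) :
    nsq (rv S f) = ∑ p ∈ S, ‖f p‖ ^ 2 :=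
  sum_rv S f (fun _ _ z => ‖z‖ ^ 2) (fun _ _ => by simp)

theorem vecMul_rv [Fintype ι] [DecidableEq ι] (A : Matrix ι ι (MonoidAlgebra 𝕜 G))
    (S : Finset (G × ι)) (f : G × ι → 𝕜) (q : G × ι) :
    ((rv S f ᵥ* A) q.2).coeff q.1 = ∑ p ∈ S, f p * hw A p q := by
  classical
  obtain ⟨k, j⟩ := q
  simp only [Matrix.vecMul, dotProduct]
  rw [MonoidAlgebra.coeff_sum, Finsupp.finsetSum_apply]
  have h1 : ∀ i, (rv S f i * A i j).coeff k
      = ∑ p ∈ S, if p.2 = i then f p * hw A p (k, j) else 0 := by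
    intro i
    simp only [rv]
    rw [Finset.sum_mul, MonoidAlgebra.coeff_sum, Finsupp.finsetSum_apply]
    refine Finset.sum_congr rfl fun p _ => ?_
    split_ifs with h
    · subst h
      rw [MonoidAlgebra.coeff_single_mul_apply]
      rfl
    · simp
  simp only [h1]
  rw [Finset.sum_comm]
  refine Finset.sum_congr rfl fun p _ => ?_
  simp

theorem quad_rv [Fintype ι] [DecidableEq ι] (A : Matrix ι ι (MonoidAlgebra 𝕜 G))
    (S : Finset (G × ι)) (f : G × ι → 𝕜) :
    quad A (rv S f) = ∑ p ∈ S, ∑ q ∈ S, f p * hw A p q * conj (f q) := by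
  unfold quad
  rw [sum_rv S f (fun g i z => ((rv S f ᵥ* A) i).coeff g * conj z) (fun _ _ => by simp)]
  rw [Finset.sum_comm]
  refine Finset.sum_congr rfl fun q _ => ?_
  rw [vecMul_rv A S f q, Finset.sum_mul]

/-- The bounds of the quadratic form of the weights. -/
theorem hw_bounds [Fintype ι] [DecidableEq ι] (A : Matrix ι ι (MonoidAlgebra 𝕜 G)) (m s : ℝ)
    (h : ∀ x : ι → MonoidAlgebra 𝕜 G, m * nsq x ≤ re (quad A x) ∧
      re (quad A x) ≤ (m + s) * nsq x) (S : Finset (G × ι)) (f : G × ι → 𝕜) :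
    m * ∑ u ∈ S, ‖f u‖ ^ 2 ≤ re (∑ u ∈ S, ∑ v ∈ S, conj (f u) * hw A u v * f v) ∧
      re (∑ u ∈ S, ∑ v ∈ S, conj (f u) * hw A u v * f v) ≤ (m + s) * ∑ u ∈ S, ‖f u‖ ^ 2 := by
  have h1 := h (rv S fun u => conj (f u))
  rw [nsq_rv, quad_rv] at h1
  simp only [RCLike.norm_conj, RCLike.conj_conj] at h1
  exact h1

section comp

/-- left multiplication on the vertices -/
def hv (g : G) (v : G × ι) : G × ι := (g * v.1, v.2)

theorem hv_mul (g h : G) (v : G × ι) : hv (g * h) v = hv g (hv h v) := by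
  simp [hv, mul_assoc]

theorem hv_one (v : G × ι) : hv (1 : G) v = v := by simp [hv]

theorem hw_hv (A : Matrix ι ι (MonoidAlgebra 𝕜 G)) (g : G) (u v : G × ι) :
    hw A (hv g u) (hv g v) = hw A u v := by
  simp [hv, hw, mul_assoc]

theorem hv_inj (g : G) : Function.Injective (hv g : G × ι → G × ι) := by
  intro u v h
  have := congrArg (hv g⁻¹) h
  rwa [← hv_mul, ← hv_mul, inv_mul_cancel, hv_one, hv_one] at this

variable (A : Matrix ι ι (MonoidAlgebra 𝕜 G)) (hA : Herm A)

theorem adj_hv (g : G) (u v : G × ι) (h : (hg A hA).Adj u v) :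
    (hg A hA).Adj (hv g u) (hv g v) :=
  ⟨fun h1 => h.1 (hv_inj g h1), by rw [hw_hv]; exact h.2⟩

theorem reach_hv (g : G) {u v : G × ι} (h : (hg A hA).Reachable u v) :
    (hg A hA).Reachable (hv g u) (hv g v) := by
  let f : hg A hA →g hg A hA := ⟨hv g, fun h => adj_hv A hA g _ _ h⟩
  exact h.map f

theorem hv_free (g : G) (v : G × ι) (h : hv g v = v) : g = 1 := by
  have := congrArg Prod.fst h
  simpa [hv] using this

/-- the stabiliser of the component of a vertex -/
def hst (b : G × ι) : Subgroup G where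
  carrier := {g | (hg A hA).Reachable b (hv g b)}
  mul_mem' := by
    intro g h hg' hh
    change (hg A hA).Reachable b (hv (g * h) b)
    rw [hv_mul]
    exact SimpleGraph.Reachable.trans hg' (reach_hv A hA g hh)
  one_mem' := by
    change (hg A hA).Reachable b (hv 1 b)
    rw [hv_one]
  inv_mem' := by
    intro g hg'
    change (hg A hA).Reachable b (hv g⁻¹ b)
    have := reach_hv A hA g⁻¹ hg'
    rw [← hv_mul, inv_mul_cancel, hv_one] at this
    exact this.symm

theorem mem_hst (b : G × ι) (g : G) : g ∈ hst A hA b ↔ (hg A hA).Reachable b (hv g b) := Iff.rfl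

/-- the component -/
abbrev hcp (b : G × ι) := (hg A hA).connectedComponentMk b

theorem mem_hcp (b v : G × ι) : v ∈ hcp A hA b ↔ (hg A hA).Reachable b v := by
  change (hg A hA).connectedComponentMk v = (hg A hA).connectedComponentMk b ↔ _
  rw [SimpleGraph.ConnectedComponent.eq]
  exact ⟨fun h => h.symm, fun h => h.symm⟩

/-- the action of the stabiliser on the component -/
@[implicit_reducible] noncomputable def hact (b : G × ι) :
    MulAction (hst A hA b) (hcp A hA b) where
  smul g v := ⟨hv g.1 v.1, by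
    rw [mem_hcp]
    have h1 : (hg A hA).Reachable b v.1 := (mem_hcp A hA b _).1 v.2
    exact SimpleGraph.Reachable.trans g.2 (reach_hv A hA g.1 h1)⟩
  one_smul v := Subtype.ext (hv_one v.1)
  mul_smul g h v := Subtype.ext (hv_mul g.1 h.1 v.1)

/-- degree bound -/
noncomputable def hdg [Fintype ι] : ℕ := ∑ i, ∑ j, (A i j).coeff.support.card

theorem hnbr [Fintype ι] (v : G × ι) :
    ∃ T : Finset (G × ι), (hg A hA).neighborSet v ⊆ T ∧ T.card ≤ hdg A := by
  classical
  obtain ⟨g, i⟩ := v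
  refine ⟨Finset.univ.biUnion (fun j => (A i j).coeff.support.image
    (fun h => ((g * h, j) : G × ι))), ?_, ?_⟩
  · rintro ⟨k, j⟩ hv'
    rw [Finset.mem_coe, Finset.mem_biUnion]
    refine ⟨j, Finset.mem_univ _, ?_⟩
    rw [Finset.mem_image]
    refine ⟨g⁻¹ * k, ?_, by simp⟩
    rw [Finsupp.mem_support_iff]
    exact hv'.2
  · refine Finset.card_biUnion_le.trans ?_
    refine (Finset.sum_le_sum fun j _ => Finset.card_image_le).trans ?_
    unfold hdg
    exact Finset.single_le_sum (f := fun i => ∑ j, (A i j).coeff.support.card)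
      (fun _ _ => Nat.zero_le _) (Finset.mem_univ i)

variable [Fintype ι] [DecidableEq ι]

theorem hrep (b : G × ι) : letI := hact A hA b
    ∃ R : Finset (hcp A hA b), ∀ v : hcp A hA b, ∃ g : hst A hA b, ∃ r ∈ R, g • r = v := by
  classical
  letI := hact A hA b
  refine ⟨Finset.univ.biUnion (fun p : ι =>
      if h : ∃ v : hcp A hA b, v.1.2 = p then {Classical.choose h} else ∅), ?_⟩
  intro v
  have hex : ∃ w : hcp A hA b, w.1.2 = v.1.2 := ⟨v, rfl⟩
  set w := Classical.choose hex with hw'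
  have hwix : w.1.2 = v.1.2 := Classical.choose_spec hex
  have h1 : hv (v.1.1 * (w.1.1)⁻¹) w.1 = v.1 := by
    refine Prod.ext ?_ hwix
    simp [hv]
  have h2 : v.1.1 * (w.1.1)⁻¹ ∈ hst A hA b := by
    rw [mem_hst]
    have hb1 : (hg A hA).Reachable b v.1 := (mem_hcp A hA b _).1 v.2
    have hb2 : (hg A hA).Reachable b w.1 := (mem_hcp A hA b _).1 w.2
    have h3 := reach_hv A hA (v.1.1 * (w.1.1)⁻¹) hb2
    rw [h1] at h3
    exact hb1.trans h3.symm
  refine ⟨⟨_, h2⟩, w, ?_, Subtype.ext h1⟩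
  rw [Finset.mem_biUnion]
  refine ⟨v.1.2, Finset.mem_univ _, ?_⟩
  rw [dif_pos hex]
  exact Finset.mem_singleton_self _

/-- The stabilisers of the components are virtually cyclic. -/
theorem hst_vc (hB : BigOff A) (s : ℝ) (hs : s ^ 2 ≤ 18) (hsp : SpanLE A s) (b : G × ι) :
    ∃ z : hst A hA b, (Subgroup.zpowers z).FiniteIndex := by
  classical
  letI := hact A hA b
  obtain ⟨m, hm⟩ := hsp
  set Γ := (hcp A hA b).toSimpleGraph with hΓ
  have hconn : Γ.Connected := (hcp A hA b).connected_toSimpleGraph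
  have hadj : ∀ u v : hcp A hA b, Γ.Adj u v ↔ (hg A hA).Adj u.1 v.1 := fun u v =>
    SimpleGraph.ConnectedComponent.toSimpleGraph_adj _ u.2 v.2
  have hsm : ∀ (g : hst A hA b) (u v : hcp A hA b), Γ.Adj u v → Γ.Adj (g • u) (g • v) := by
    intro g u v h
    rw [hadj] at h ⊢
    exact adj_hv A hA g.1 _ _ h
  obtain ⟨R, hR⟩ := hrep A hA b
  set s' := Real.sqrt 18 with hs'
  have hs'0 : 0 < s' := Real.sqrt_pos.2 (by norm_num)
  have hs'2 : s' ^ 2 = 18 := Real.sq_sqrt (by norm_num)
  have hss : s ≤ s' := by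
    have : s ^ 2 ≤ s' ^ 2 := by rw [hs'2]; exact hs
    exact le_of_sq_le_sq this hs'0.le
  -- no tripods
  obtain ⟨N, hN⟩ : ∃ N, ¬ HasTri Γ N := by
    refine noTri (S := hst A hA b) hconn (fun u v => hw A u.1 v.1)
      (fun u v => hw_symm hA _ _)
      (fun u v huv h => by
        by_contra h1
        exact h ((hadj u v).2 ⟨fun h2 => huv (Subtype.ext h2), h1⟩))
      (fun u v h => hw_big hB _ _ ((hadj u v).1 h).1 ((hadj u v).1 h).2) m s' hs'0 hs'2.le
      (fun S f => by
        obtain ⟨F, hF⟩ : ∃ F : G × ι → 𝕜, ∀ x : hcp A hA b, F x.1 = f x :=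
          ⟨fun v => if h : v ∈ hcp A hA b then f ⟨v, h⟩ else 0, fun x => dif_pos x.2⟩
        have h1 := hw_bounds A m s hm (S.map (Function.Embedding.subtype _)) F
        simp only [Finset.sum_map, Function.Embedding.subtype_apply, hF] at h1
        refine ⟨h1.1, h1.2.trans ?_⟩
        have h2 : 0 ≤ ∑ u ∈ S, ‖f u‖ ^ 2 := Finset.sum_nonneg fun _ _ => sq_nonneg _
        exact mul_le_mul_of_nonneg_right (by linarith) h2) hsm R hR
  refine vc_of_noTri3 (S := hst A hA b) hconn (hdg A) ?_ N hN hsm ?_ R hR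
  · intro v
    obtain ⟨T, hT1, hT2⟩ := hnbr A hA v.1
    have hsub : (Subtype.val '' Γ.neighborSet v) ⊆ (T : Set (G × ι)) := by
      rintro _ ⟨u, hu, rfl⟩
      exact hT1 ((hadj v u).1 hu)
    have hfin : (Subtype.val '' Γ.neighborSet v).Finite := T.finite_toSet.subset hsub
    refine ⟨hfin.of_finite_image Subtype.val_injective.injOn, ?_⟩
    rw [← Set.ncard_image_of_injective _ Subtype.val_injective]
    exact (Set.ncard_le_ncard hsub T.finite_toSet).trans (by rw [Set.ncard_coe_finset]; exact hT2)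
  · intro g v h
    exact Subtype.ext (hv_free g.1 v.1 (congrArg Subtype.val h))

include hA in
/-- Decomposition into the components. -/
theorem herm_struct_gen (Q : Subgroup G → Prop) (hQ : ∀ b, Q (hst A hA b)) :
    ∃ (ρ : ι → ι) (u : ι → G) (C : ι → Subgroup G), (∀ a, Q (C a)) ∧
      ∀ i j h, (A i j).coeff h ≠ 0 → ρ i = ρ j ∧ u i * h * (u j)⁻¹ ∈ C (ρ i) := by
  classical
  let bs : ι → G × ι := fun i => (1, i)
  let st : Setoid ι :=
    { r := fun p q => ∃ g : G, (hg A hA).Reachable (bs p) (hv g (bs q))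
      iseqv := by
        refine ⟨fun p => ⟨1, by rw [hv_one]⟩, ?_, ?_⟩
        · rintro p q ⟨g, hg'⟩
          refine ⟨g⁻¹, ?_⟩
          have := reach_hv A hA g⁻¹ hg'
          rw [← hv_mul, inv_mul_cancel, hv_one] at this
          exact this.symm
        · rintro p q r ⟨g, hg'⟩ ⟨h, hh⟩
          refine ⟨g * h, ?_⟩
          rw [hv_mul]
          exact hg'.trans (reach_hv A hA g hh) }
  let ρ : ι → ι := fun p => (Quotient.mk st p).out
  have hρ : ∀ p, ∃ g : G, (hg A hA).Reachable (bs (ρ p)) (hv g (bs p)) := fun p =>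
    Quotient.exact (Quotient.out_eq (Quotient.mk st p))
  choose u hu using hρ
  refine ⟨ρ, u, fun b => hst A hA (bs b), fun b => hQ _, ?_⟩
  intro i j h hne
  have hreach : (hg A hA).Reachable (bs i) (hv h (bs j)) := by
    by_cases heq : bs i = hv h (bs j)
    · rw [heq]
    · apply SimpleGraph.Adj.reachable
      refine ⟨heq, ?_⟩
      simp only [bs, hv, hw]
      simpa using hne
  have heq : ρ i = ρ j := by
    have : Quotient.mk st i = Quotient.mk st j := Quotient.sound ⟨h, hreach⟩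
    simp only [ρ, this]
  refine ⟨heq, ?_⟩
  rw [mem_hst]
  have h1 := hu i
  have h2 := reach_hv A hA (u i) hreach
  have h3 := hu j
  rw [← heq] at h3
  have h4 := reach_hv A hA (u i * h * (u j)⁻¹) h3
  have e : hv (u i * h * (u j)⁻¹) (hv (u j) (bs j)) = hv (u i) (hv h (bs j)) := by
    rw [← hv_mul, ← hv_mul]
    congr 1
    group
  rw [e] at h4
  exact (h1.trans h2).trans h4.symm

include hA in
/-- The structure theorem. -/
theorem herm_struct (hB : BigOff A) (s : ℝ) (hs : s ^ 2 ≤ 18) (hsp : SpanLE A s) :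
    ∃ (ρ : ι → ι) (u : ι → G) (C : ι → Subgroup G),
      (∀ a, ∃ z : C a, (Subgroup.zpowers z).FiniteIndex) ∧
      ∀ i j h, (A i j).coeff h ≠ 0 → ρ i = ρ j ∧ u i * h * (u j)⁻¹ ∈ C (ρ i) :=
  herm_struct_gen A hA (fun C => ∃ z : C, (Subgroup.zpowers z).FiniteIndex)
    fun b => hst_vc A hA hB s hs hsp b

include hA in
/-- The structure theorem for torsion-free groups. -/
theorem herm_struct_tf (htf : ∀ g : G, ∀ n : ℕ, 0 < n → g ^ n = 1 → g = 1) (hB : BigOff A)
    (s : ℝ) (hs : s ^ 2 ≤ 18) (hsp : SpanLE A s) :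
    ∃ (ρ : ι → ι) (u : ι → G) (C : ι → Subgroup G), (∀ a, IsCyclic (C a)) ∧
      ∀ i j h, (A i j).coeff h ≠ 0 → ρ i = ρ j ∧ u i * h * (u j)⁻¹ ∈ C (ρ i) := by
  refine herm_struct_gen A hA (fun C => IsCyclic C) fun b => ?_
  obtain ⟨z, hz⟩ := hst_vc A hA hB s hs hsp b
  exact TH6.LF.isCyclic_of_finiteIndex
    (fun g n hn hg => Subtype.ext (htf g.1 n hn (by simpa using congrArg Subtype.val hg)))
    (Subgroup.zpowers z) inferInstance hz

/-- Below the length four the stabilisers of the components are finite. -/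
theorem hst_finite (hB : BigOff A) (s : ℝ) (hs : s < 4) (hsp : SpanLE A s) (b : G × ι) :
    Finite (hst A hA b) := by
  classical
  letI := hact A hA b
  obtain ⟨m, hm⟩ := hsp
  set Γ := (hcp A hA b).toSimpleGraph with hΓ
  have hconn : Γ.Connected := (hcp A hA b).connected_toSimpleGraph
  have hadj : ∀ u v : hcp A hA b, Γ.Adj u v ↔ (hg A hA).Adj u.1 v.1 := fun u v =>
    SimpleGraph.ConnectedComponent.toSimpleGraph_adj _ u.2 v.2
  have hfin : Finite (hcp A hA b) := by
    by_contra hcon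
    have hinf : Infinite (hcp A hA b) := not_finite_iff_infinite.1 hcon
    obtain ⟨k, hk⟩ := exists_nat_gt (s / (4 - s))
    have hdeg : ∀ v : hcp A hA b, (Γ.neighborSet v).Finite ∧ (Γ.neighborSet v).ncard ≤ hdg A := by
      intro v
      obtain ⟨T, hT1, hT2⟩ := hnbr A hA v.1
      have hsub : (Subtype.val '' Γ.neighborSet v) ⊆ (T : Set (G × ι)) := by
        rintro _ ⟨u, hu, rfl⟩
        exact hT1 ((hadj v u).1 hu)
      have hfin : (Subtype.val '' Γ.neighborSet v).Finite := T.finite_toSet.subset hsub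
      refine ⟨hfin.of_finite_image Subtype.val_injective.injOn, ?_⟩
      rw [← Set.ncard_image_of_injective _ Subtype.val_injective]
      exact (Set.ncard_le_ncard hsub T.finite_toSet).trans
        (by rw [Set.ncard_coe_finset]; exact hT2)
    obtain ⟨v⟩ : Nonempty (hcp A hA b) := inferInstance
    obtain ⟨w, hw'⟩ := exists_dist_eq hconn (hdg A) hdeg v k
    obtain ⟨γ, hγ0, hγ1, hγ⟩ := exists_geod hconn v w
    rw [hw'] at hγ1 hγ
    have key := path_herm Γ (fun u v => hw A u.1 v.1) (fun u v => hw_symm hA _ _)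
      (fun u v huv h => by
        by_contra h1
        exact h ((hadj u v).2 ⟨fun h2 => huv (Subtype.ext h2), h1⟩))
      (fun u v h => hw_big hB _ _ ((hadj u v).1 h).1 ((hadj u v).1 h).2) m s
      (fun S f => by
        obtain ⟨F, hF⟩ : ∃ F : G × ι → 𝕜, ∀ x : hcp A hA b, F x.1 = f x :=
          ⟨fun v => if h : v ∈ hcp A hA b then f ⟨v, h⟩ else 0, fun x => dif_pos x.2⟩
        have h1 := hw_bounds A m s hm (S.map (Function.Embedding.subtype _)) F
        simp only [Finset.sum_map, Function.Embedding.subtype_apply, hF] at h1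
        exact h1) k γ
      (fun i j hi hj h => by
        have := hγ i j hi hj
        rw [h, SimpleGraph.dist_self] at this
        omega)
      (fun i hi => by
        rw [← SimpleGraph.dist_eq_one_iff_adj, hγ i (i + 1) (by omega) hi]
        omega)
      (fun i j hij hj h => by
        have := SimpleGraph.dist_eq_one_iff_adj.2 h
        rw [hγ i j (by omega) hj] at this
        omega)
    have h4 : 0 < 4 - s := by linarith
    rw [div_lt_iff₀ h4] at hk
    nlinarith
  exact Finite.of_injective (fun g : hst A hA b => g • (⟨b, rfl⟩ : hcp A hA b)) (by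
    intro x y hxy
    have h1 : hv x.1 b = hv y.1 b := congrArg Subtype.val hxy
    have h2 : hv (y.1⁻¹ * x.1) b = b := by
      rw [hv_mul, h1, ← hv_mul, inv_mul_cancel, hv_one]
    have h3 := hv_free _ _ h2
    rw [inv_mul_eq_one] at h3
    exact Subtype.ext h3.symm)

include hA in
/-- The structure theorem below the length four. -/
theorem herm_struct4 (htf : ∀ g : G, ∀ n : ℕ, 0 < n → g ^ n = 1 → g = 1) (hB : BigOff A)
    (s : ℝ) (hs : s < 4) (hsp : SpanLE A s) :
    ∃ (ρ : ι → ι) (u : ι → G), ∀ i j h, (A i j).coeff h ≠ 0 → ρ i = ρ j ∧ h = (u i)⁻¹ * u j := by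
  obtain ⟨ρ, u, C, hC, h1⟩ := herm_struct_gen A hA (fun C => Finite C) fun b =>
    hst_finite A hA hB s hs hsp b
  refine ⟨ρ, u, fun i j h hne => ?_⟩
  obtain ⟨h2, h3⟩ := h1 i j h hne
  refine ⟨h2, ?_⟩
  haveI := hC (ρ i)
  have h4 : (⟨_, h3⟩ : C (ρ i)) ^ Nat.card (C (ρ i)) = 1 := pow_card_eq_one'
  have h5 := htf _ _ Nat.card_pos (congrArg Subtype.val h4)
  have h6 : h = (u i)⁻¹ * (u i * h * (u j)⁻¹) * u j := by group
  rw [h6]
  simp only at h5
  rw [h5, mul_one]

end comp

end Pool.Agent.U731.SP
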