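import Pool.Agent.U731.SP.Struct
import Pool.Agent.TH57.Thr.Asm
import Pool.Agent.TH6.LF.Bar

set_option autoImplicit false
set_option linter.style.haveILetI false
set_option linter.unusedSectionVars false

/-! Invertible hermitian matrices over integral group rings of torsion-free groups whose spectrum
lies in an interval of length at most `3 √2` are trivial in the Whitehead group. -/

namespace Pool.Agent.U731.SP

open Matrix TH57.Thr TH6.LF ComplexConjugate
open RCLike (re)

section real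

variable {G : Type} [Group G] {ι : Type}

/-- hermitian matrices over the integral group ring -/
def HermZ (P : Matrix ι ι (MonoidAlgebra ℤ G)) : Prop :=
  ∀ i j g, (P j i).coeff g⁻¹ = (P i j).coeff g

theorem toReal_coeff (P : Matrix ι ι (MonoidAlgebra ℤ G)) (i j : ι) (g : G) :
    (toReal P i j).coeff g = ((P i j).coeff g : ℝ) := by
  simp only [toReal, Matrix.map_apply, MonoidAlgebra.coeff_mapRingHom]
  rfl

theorem herm_toReal {P : Matrix ι ι (MonoidAlgebra ℤ G)} (hP : HermZ P) : Herm (toReal P) := by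
  intro i j g
  rw [toReal_coeff, toReal_coeff, hP i j g]
  simp

theorem big_toReal (P : Matrix ι ι (MonoidAlgebra ℤ G)) : BigOff (toReal P) := by
  intro i j g h
  right
  rw [toReal_coeff] at h ⊢
  have h1 : (P i j).coeff g ≠ 0 := by
    intro h2
    apply h
    rw [h2]
    simp
  rw [Real.norm_eq_abs]
  have h2 := Int.one_le_abs h1
  exact_mod_cast h2

theorem nsq_real [Fintype ι] (x : ι → MonoidAlgebra ℝ G) : nsq x = normSq x := by
  unfold nsq TH57.Thr.normSq
  refine Finset.sum_congr rfl fun i _ => Finset.sum_congr rfl fun g _ => ?_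
  rw [Real.norm_eq_abs, sq_abs]

theorem quad_real [Fintype ι] (A : Matrix ι ι (MonoidAlgebra ℝ G)) (x : ι → MonoidAlgebra ℝ G) :
    re (quad A x) = ip (x ᵥ* A) x := by
  rw [ip_comm]
  unfold quad ip
  rw [MonoidAlgebra.coeff_sum, Finsupp.finsetSum_apply, RCLike.re_to_real]
  refine Finset.sum_congr rfl fun i _ => ?_
  rw [MonoidAlgebra.coeff_mul_apply_left, Finsupp.sum]
  refine Finset.sum_congr rfl fun g _ => ?_
  rw [coeff_bar]
  simp [mul_comm]

theorem spanLE_iff [Fintype ι] (P : Matrix ι ι (MonoidAlgebra ℤ G)) (s : ℝ) :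
    SpanLE (toReal P) s ↔ ∃ m : ℝ, ∀ x : ι → MonoidAlgebra ℝ G,
      m * normSq x ≤ ip (x ᵥ* toReal P) x ∧ ip (x ᵥ* toReal P) x ≤ (m + s) * normSq x := by
  unfold SpanLE
  simp only [nsq_real, quad_real]

/-- A norm bound gives a bound of the span. -/
theorem span_of_norm [Fintype ι] (P : Matrix ι ι (MonoidAlgebra ℤ G)) (c : ℝ) (hc : 0 < c)
    (hP : NormLE P c) : SpanLE (toReal P) (2 * c) := by
  rw [spanLE_iff]
  refine ⟨-c, fun x => ?_⟩
  have h1 := two_ip_le (x ᵥ* toReal P) x c⁻¹ (inv_pos.2 hc)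
  have h2 := hP x
  rw [inv_inv] at h1
  have h3 : c⁻¹ * normSq (x ᵥ* toReal P) ≤ c * normSq x := by
    calc c⁻¹ * normSq (x ᵥ* toReal P) ≤ c⁻¹ * (c ^ 2 * normSq x) :=
          mul_le_mul_of_nonneg_left h2 (inv_nonneg.2 hc.le)
      _ = c * normSq x := by field_simp
  have h4 : |ip (x ᵥ* toReal P) x| ≤ c * normSq x := by linarith
  have h5 := abs_le.1 h4
  constructor <;> linarith [h5.1, h5.2]

end real

section wh

variable {Γ : Type} [Group Γ]

/-- **Hermitian matrices of small span are stably trivial.** -/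
theorem TT_span (htf : ∀ g : Γ, ∀ k : ℕ, 0 < k → g ^ k = 1 → g = 1)
    {κ : Type} [Fintype κ] [DecidableEq κ] (P : (Matrix κ κ (MonoidAlgebra ℤ Γ))ˣ)
    (hP : HermZ P.val) (s : ℝ) (hs : s ^ 2 ≤ 18) (hsp : SpanLE (toReal P.val) s) :
    TT (TU Γ) P := by
  obtain ⟨ρ, u, C, hC, hst⟩ := herm_struct_tf (toReal P.val) (herm_toReal hP) htf
    (big_toReal P.val) s hs hsp
  have hst' : ∀ i j g, ((P : Matrix κ κ (MonoidAlgebra ℤ Γ)) i j).coeff g ≠ 0 →
      ρ i = ρ j ∧ u i * g * (u j)⁻¹ ∈ C (ρ i) := by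
    intro i j g hg
    refine hst i j g ?_
    rw [toReal_coeff]
    exact_mod_cast hg
  let B : (Matrix κ κ (MonoidAlgebra ℤ Γ))ˣ := dgu u * P * (dgu u)⁻¹
  have hB : ∀ i j, (B : Matrix κ κ (MonoidAlgebra ℤ Γ)) i j
      = MonoidAlgebra.single (u i) 1 * (P : Matrix κ κ (MonoidAlgebra ℤ Γ)) i j
        * MonoidAlgebra.single (u j)⁻¹ 1 := by
    intro i j
    change (Matrix.diagonal (fun i => MonoidAlgebra.single (u i) (1 : ℤ))
      * (P : Matrix κ κ (MonoidAlgebra ℤ Γ))
      * Matrix.diagonal (fun j => MonoidAlgebra.single (u j)⁻¹ (1 : ℤ)) :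
        Matrix κ κ (MonoidAlgebra ℤ Γ)) i j = _
    rw [Matrix.mul_diagonal, Matrix.diagonal_mul]
  have hBT : TT (TU Γ) B := by
    apply TT_blocks htf _ κ le_rfl κ ρ C hC
    intro i j g hg
    rw [hB, MonoidAlgebra.coeff_mul_single_apply, MonoidAlgebra.coeff_single_mul_apply, one_mul,
      mul_one, inv_inv] at hg
    have h1 := hst' i j _ hg
    refine ⟨h1.1, ?_⟩
    have h2 := h1.2
    have h3 : u i * ((u i)⁻¹ * (g * u j)) * (u j)⁻¹ = g := by group
    rwa [h3] at h2
  have hP2 : P = (dgu u)⁻¹ * B * dgu u := by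
    simp only [B]; group
  rw [hP2]
  exact TT_mul _ _ _ (TT_mul _ _ _ (TT_inv _ _ (TT_dgu htf _)) hBT) (TT_dgu htf _)

/-- Below the length four the matrix is conjugate to an integral matrix by a diagonal matrix of
group elements. -/
theorem monomial_of_span (htf : ∀ g : Γ, ∀ k : ℕ, 0 < k → g ^ k = 1 → g = 1)
    {κ : Type} [Fintype κ] [DecidableEq κ] (P : Matrix κ κ (MonoidAlgebra ℤ Γ))
    (hP : HermZ P) (s : ℝ) (hs : s < 4) (hsp : SpanLE (toReal P) s) :
    ∃ (u : κ → Γ) (C : Matrix κ κ ℤ), (∀ i j, C j i = C i j) ∧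
      ∀ i j, P i j = MonoidAlgebra.single ((u i)⁻¹ * u j) (C i j) := by
  obtain ⟨ρ, u, h1⟩ := herm_struct4 (toReal P) (herm_toReal hP) htf (big_toReal P) s hs hsp
  classical
  refine ⟨u, Matrix.of fun i j => (P i j).coeff ((u i)⁻¹ * u j), fun i j => ?_, fun i j => ?_⟩
  · rw [Matrix.of_apply, Matrix.of_apply, ← hP i j]
    congr 1
    group
  · ext g
    rw [MonoidAlgebra.coeff_single, Finsupp.single_apply, Matrix.of_apply]
    split_ifs with h
    · rw [h]
    · by_contra h2
      apply h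
      have h3 : (toReal P i j).coeff g ≠ 0 := by
        rw [toReal_coeff]
        exact_mod_cast h2
      exact (h1 i j g h3).2.symm

end wh

end Pool.Agent.U731.SP
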